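import Pool.Agent.Q44.TK.Low1

/-!
# The number of the Selmer cocycles, from below
-/

set_option autoImplicit false
set_option linter.unusedSectionVars false

open scoped Classical

namespace Q44.TK

open WeierstrassCurve
open Q44.TI
open Pool.Agent.W262.SH (QB Pt act IsCoc IsCob LocTriv shaCoc cob Sha)
open Pool.Agent.TH841.SH Pool.Agent.Y668

variable {A B : ℤ}

theorem sig_s {z : ℤ} {s : QB} (hs : s ^ 2 = ((z : ℤ) : QB)) (σ : QB ≃ₐ[ℚ] QB) :
    σ s = s ∨ σ s = -s := by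
  have h6 : (σ s) ^ 2 = s ^ 2 := by
    rw [← map_pow, hs, map_intCast]
  exact sq_eq_sq_iff_eq_or_eq_neg.1 h6

theorem fz_mem (hB : B ≠ 0) (hC : A ^ 2 - 4 * B ≠ 0) {z : ℤ}
    (hz : z ∈ SelS (-2 * A) (A ^ 2 - 4 * B)) {s : QB} (hs : s ^ 2 = ((z : ℤ) : QB))
    (hn : ((Wt (A : ℚ) (B : ℚ)).baseChange QB).toAffine.Nonsingular 0 0) :
    fz s (.some 0 0 hn) ∈ selCoc (Wt (A : ℚ) (B : ℚ)) := by
  have qb : (B : ℚ) ≠ 0 := by exact_mod_cast hB
  have qab : (A : ℚ) ^ 2 - 4 * (B : ℚ) ≠ 0 := by exact_mod_cast hC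
  obtain ⟨e1, e2, hp12, hR, hne⟩ := exists_roots QB (A : ℚ) (B : ℚ)
  obtain ⟨n1, n2, n12⟩ := hne qb qab
  have h2 : (2 : QB) ≠ 0 := two_ne_zero
  have hz0 : ((z : ℤ) : QB) ≠ 0 := by exact_mod_cast hz.1.ne_zero
  have hs0 : s ≠ 0 := by
    rintro rfl
    apply hz0
    rw [← hs]
    ring
  have hss : -s ≠ s := by
    intro h
    apply hs0
    have : 2 * s = 0 := by linear_combination -h
    exact (mul_eq_zero.1 this).resolve_left h2
  set T : Pt (Wt (A : ℚ) (B : ℚ)) QB := .some 0 0 hn with hT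
  have hTT : T + T = 0 := (hR.add_self h2 hn).2 rfl
  have hTσ : ∀ σ : QB ≃ₐ[ℚ] QB, act (Wt (A : ℚ) (B : ℚ)) σ.toAlgHom T = T := by
    intro σ
    rw [hT, act_some, Affine.Point.some.injEq]
    exact ⟨map_zero σ, map_zero σ⟩
  refine ⟨(lc_apply s).comp (fun x => if x = s then 0 else T), fun σ => ?_, fun σ τ => ?_,
    fun p _ ι => ?_, fun ι => ?_⟩
  · unfold fz
    split_ifs
    · rw [add_zero]
    · exact hTT
  · have e1 : (σ * τ) s = σ (τ s) := rfl
    unfold fz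
    rw [e1]
    rcases sig_s hs τ with h3 | h3 <;> rcases sig_s hs σ with h4 | h4
    · rw [h3, h4, if_pos rfl, map_zero, add_zero]
    · rw [h3, h4, if_neg hss, if_pos rfl, map_zero, add_zero]
    · rw [h3, map_neg, h4, if_neg hss, if_pos rfl, hTσ, zero_add]
    · rw [h3, map_neg, h4, neg_neg, if_pos rfl, if_neg hss, hTσ, hTT]
  · exact loc_triv (K := ℚ_[p]) hB hC (hz.2.1 p) hs hn ι
  · exact loc_triv (K := ℝ) hB hC hz.2.2 hs hn ι

/-- squarefree numbers with a square product -/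
theorem sqf_eq {z w : ℤ} (hz : Squarefree z) (hw : Squarefree w) (h : IsSquare (z * w)) : z = w := by
  obtain ⟨k, hk⟩ := h
  have h1 : z ∣ k := (hz.dvd_pow_iff_dvd two_ne_zero).1 ⟨w, by rw [sq, ← hk]⟩
  obtain ⟨t, rfl⟩ := h1
  have h2 : w = z * (t * t) := by
    apply mul_left_cancel₀ hz.ne_zero
    rw [hk]
    ring
  have h3 : IsUnit t := hw t (by rw [h2]; exact Dvd.intro_left _ rfl)
  rcases Int.isUnit_iff.1 h3 with rfl | rfl
  · rw [h2]; ring
  · rw [h2]; ring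

/-- the cocycle determines the class -/
theorem fz_inj {z w : ℤ} (hz : Squarefree z) (hw : Squarefree w) {s t : QB}
    (hs : s ^ 2 = ((z : ℤ) : QB)) (ht : t ^ 2 = ((w : ℤ) : QB))
    (hn : ((Wt (A : ℚ) (B : ℚ)).baseChange QB).toAffine.Nonsingular 0 0)
    (h : fz s (.some 0 0 hn : Pt (Wt (A : ℚ) (B : ℚ)) QB) = fz t (.some 0 0 hn)) : z = w := by
  have hT0 : (.some 0 0 hn : Pt (Wt (A : ℚ) (B : ℚ)) QB) ≠ 0 := Affine.Point.some_ne_zero _
  have hfix : ∀ σ : QB ≃ₐ[ℚ] QB, σ (s * t) = s * t := by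
    intro σ
    have h1 := congrFun h σ
    unfold fz at h1
    have h2 : σ s = s ↔ σ t = t := by
      by_cases h3 : σ s = s <;> by_cases h4 : σ t = t
      · exact ⟨fun _ => h4, fun _ => h3⟩
      · rw [if_pos h3, if_neg h4] at h1
        exact absurd h1.symm hT0
      · rw [if_neg h3, if_pos h4] at h1
        exact absurd h1 hT0
      · exact ⟨fun h => absurd h h3, fun h => absurd h h4⟩
    rw [map_mul]
    rcases sig_s hs σ with h3 | h3
    · rw [h3, h2.1 h3]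
    · rcases sig_s ht σ with h4 | h4
      · rw [h2.2 h4, h4]
      · rw [h3, h4, neg_mul_neg]
  obtain ⟨q, hq⟩ := fix_mem (K := ℚ) (s * t) hfix
  apply sqf_eq hz hw
  rw [← Rat.isSquare_intCast_iff]
  refine ⟨q, ?_⟩
  apply (algebraMap ℚ QB).injective
  rw [map_mul, hq, map_intCast]
  push_cast
  rw [← hs, ← ht]
  ring

/-- the class of the half of `T` does not come from the isogeny -/
theorem half_not (hB : B ≠ 0) (hC : A ^ 2 - 4 * B ≠ 0) (hBs : ¬ IsSquare B)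
    (hn : ((Wt (A : ℚ) (B : ℚ)).baseChange QB).toAffine.Nonsingular 0 0)
    {Q : Pt (Wt (A : ℚ) (B : ℚ)) QB} (hQ : Q + Q = .some 0 0 hn) :
    ¬ ∀ σ : QB ≃ₐ[ℚ] QB, act (Wt (A : ℚ) (B : ℚ)) σ.toAlgHom Q - Q = 0 ∨
      act (Wt (A : ℚ) (B : ℚ)) σ.toAlgHom Q - Q = .some 0 0 hn := by
  intro H
  have qb : (B : ℚ) ≠ 0 := by exact_mod_cast hB
  have qab : (A : ℚ) ^ 2 - 4 * (B : ℚ) ≠ 0 := by exact_mod_cast hC
  obtain ⟨e1, e2, hp12, hR, hne⟩ := exists_roots QB (A : ℚ) (B : ℚ)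
  obtain ⟨n1, n2, n12⟩ := hne qb qab
  have h2 : (2 : QB) ≠ 0 := two_ne_zero
  rcases Q with _ | ⟨u, v, hnu⟩
  · exact Affine.Point.some_ne_zero _ (hQ.symm.trans (add_zero _))
  · have hv : v ≠ 0 := by
      intro hv
      rw [(hR.add_self h2 hnu).2 hv] at hQ
      exact Affine.Point.some_ne_zero _ hQ.symm
    obtain ⟨X, Y, hn', h3, h4⟩ := hR.dup h2 hnu hv
    rw [h3, Affine.Point.some.injEq] at hQ
    rw [hQ.1, sub_self] at h4
    have h5 : ((u - 0) ^ 2 - (0 - e1) * (0 - e2)) / (2 * v) = 0 := pow_eq_zero_iff two_ne_zero |>.1 h4.symm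
    rw [div_eq_zero_iff] at h5
    have h6 : u ^ 2 = (B : QB) := by
      rcases h5 with h5 | h5
      · have : e1 * e2 = (B : QB) := by rw [hp12, map_intCast]
        rw [← this]
        linear_combination h5
      · exact absurd h5 (mul_ne_zero h2 hv)
    have hu0 : u ≠ 0 := by
      rintro rfl
      have : (B : QB) ≠ 0 := by exact_mod_cast hB
      apply this
      rw [← h6]
      ring
    have hfix : ∀ σ : QB ≃ₐ[ℚ] QB, σ u = u := by
      intro σ
      rcases H σ with h7 | h7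
      · rw [sub_eq_zero, act_some, Affine.Point.some.injEq] at h7
        exact h7.1
      · rw [sub_eq_iff_eq_add, add_comm] at h7
        obtain ⟨X', Y', hn'', h8, -, -, -, h9, -⟩ := hR.trans hnu hv hn
        rw [h8, act_some, Affine.Point.some.injEq] at h7
        have h10 : σ u = X' := h7.1
        rw [h10, h9]
        have e3 : (0 - e1) * (0 - e2) = (B : QB) := by
          have : e1 * e2 = (B : QB) := by rw [hp12, map_intCast]
          rw [← this]
          ring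
        rw [e3, ← h6]
        field_simp
        ring
    obtain ⟨q, hq⟩ := fix_mem (K := ℚ) u hfix
    apply hBs
    rw [← Rat.isSquare_intCast_iff]
    refine ⟨q, ?_⟩
    apply (algebraMap ℚ QB).injective
    rw [map_mul, hq, map_intCast]
    push_cast
    rw [← h6]
    ring

/-- **the number of the Selmer cocycles, from below** -/
theorem card_ge (hB : B ≠ 0) (hC : A ^ 2 - 4 * B ≠ 0) (hBs : ¬ IsSquare B)
    [hfin : Finite (selCoc (Wt (A : ℚ) (B : ℚ)))] :
    2 * (SelS (-2 * A) (A ^ 2 - 4 * B)).ncard ≤ Nat.card (selCoc (Wt (A : ℚ) (B : ℚ))) := by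
  have qb : (B : ℚ) ≠ 0 := by exact_mod_cast hB
  have qab : (A : ℚ) ^ 2 - 4 * (B : ℚ) ≠ 0 := by exact_mod_cast hC
  obtain ⟨e1, e2, hp12, hR, hne⟩ := exists_roots QB (A : ℚ) (B : ℚ)
  obtain ⟨n1, n2, n12⟩ := hne qb qab
  have h2 : (2 : QB) ≠ 0 := two_ne_zero
  have hn : ((Wt (A : ℚ) (B : ℚ)).baseChange QB).toAffine.Nonsingular 0 0 :=
    hR.nons h2 n1 n2 n12 (by ring)
  set T : Pt (Wt (A : ℚ) (B : ℚ)) QB := .some 0 0 hn with hT
  have hTT : T + T = 0 := (hR.add_self h2 hn).2 rfl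
  have hTσ : ∀ σ : QB ≃ₐ[ℚ] QB, act (Wt (A : ℚ) (B : ℚ)) σ.toAlgHom T = T := by
    intro σ
    rw [hT, act_some, Affine.Point.some.injEq]
    exact ⟨map_zero σ, map_zero σ⟩
  obtain ⟨Q, hQ⟩ := hR.div h2 n1 n2 n12 T
  have hc : (fun σ : QB ≃ₐ[ℚ] QB => act (Wt (A : ℚ) (B : ℚ)) σ.toAlgHom Q - Q) ∈
      selCoc (Wt (A : ℚ) (B : ℚ)) := by
    apply cob_selCoc
    intro σ
    have e3 : act (Wt (A : ℚ) (B : ℚ)) σ.toAlgHom Q - Q +
      (act (Wt (A : ℚ) (B : ℚ)) σ.toAlgHom Q - Q) =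
      (act (Wt (A : ℚ) (B : ℚ)) σ.toAlgHom Q + act (Wt (A : ℚ) (B : ℚ)) σ.toAlgHom Q) - (Q + Q) := by
      abel
    rw [e3, ← map_add, ← hQ, hTσ, sub_self]
  set f2 : selCoc (Wt (A : ℚ) (B : ℚ)) := ⟨_, hc⟩ with hf2
  have hsq : ∀ z : ℤ, ∃ s : QB, s ^ 2 = ((z : ℤ) : QB) := fun z =>
    IsAlgClosed.exists_pow_nat_eq ((z : ℤ) : QB) (by norm_num)
  choose s hs using hsq
  set S := SelS (-2 * A) (A ^ 2 - 4 * B) with hS
  let F : S → selCoc (Wt (A : ℚ) (B : ℚ)) := fun z => ⟨fz (s z) T, fz_mem hB hC z.2 (hs z) hn⟩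
  let Ψ : S × Bool → selCoc (Wt (A : ℚ) (B : ℚ)) := fun q => if q.2 then F q.1 + f2 else F q.1
  have two0 : ∀ f : selCoc (Wt (A : ℚ) (B : ℚ)), f + f = 0 := by
    intro f
    apply Subtype.ext
    funext σ
    exact f.2.2.1 σ
  have hF : ∀ z w : S, F z = F w → z = w := by
    intro z w h
    apply Subtype.ext
    exact fz_inj z.2.1 w.2.1 (hs z) (hs w) hn (congrArg Subtype.val h)
  have hno : ∀ z w : S, F z + F w ≠ f2 := by
    intro z w h
    apply half_not hB hC hBs hn (Q := Q) hQ.symm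
    intro σ
    have h3 : (F z + F w).1 σ = act (Wt (A : ℚ) (B : ℚ)) σ.toAlgHom Q - Q := by
      rw [h]
    rw [← h3]
    have h4 : (F z + F w).1 σ = fz (s z) T σ + fz (s w) T σ := rfl
    rw [h4]
    unfold fz
    split_ifs
    · left; rw [add_zero]
    · right; rw [zero_add]
    · right; rw [add_zero]
    · left; exact hTT
  have hΨ : Function.Injective Ψ := by
    rintro ⟨z, i⟩ ⟨w, j⟩ h
    cases i <;> cases j
    · have h3 : F z = F w := h
      rw [hF z w h3]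
    · exfalso
      have h3 : F z = F w + f2 := h
      apply hno z w
      rw [h3, add_comm, ← add_assoc, two0, zero_add]
    · exfalso
      have h3 : F z + f2 = F w := h
      apply hno z w
      rw [← h3, ← add_assoc, two0, zero_add]
    · have h3 : F z + f2 = F w + f2 := h
      rw [hF z w (add_right_cancel h3)]
  have h3 := Nat.card_le_card_of_injective Ψ hΨ
  rw [Nat.card_prod, Nat.card_eq_fintype_card (α := Bool), Fintype.card_bool,
    Nat.card_coe_set_eq] at h3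
  rw [mul_comm]
  exact h3

end Q44.TK
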