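import Pool.Agent.Q44.TI.Sha
import Pool.Agent.Q44.TK.Low2

/-!
# The rank and the Tate-Shafarevich group from below
-/

set_option autoImplicit false

open scoped Classical

namespace Q44.TK

open WeierstrassCurve

open Pool.Agent.W262.SH (QB Pt act IsCoc IsCob LocTriv shaCoc cob Sha)
open Pool.Agent.TH841.SH Pool.Agent.Y668
open Pool.Agent.Y700 (exists_SR diff_rat)
open Q44.TI

/-- a quotient by a subgroup which contains the doubles and the torsion -/
theorem quot_le {G : Type*} [AddCommGroup G] [Module.Finite ℤ G] (D : AddSubgroup G)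
    (h2 : ∀ q : G, q + q ∈ D) (ht : ∀ (x : G) (n : ℕ), 0 < n → n • x = 0 → x ∈ D) :
    Nat.card (G ⧸ D) ≤ 2 ^ Module.finrank ℤ G := by
  let M := G ⧸ Submodule.torsion ℤ G
  have hr : Module.finrank ℤ M = Module.finrank ℤ G := finrank_quotient_eq_of_le_torsion le_rfl
  rw [← hr]
  have : Module.Finite ℤ M := inferInstance
  have : Module.Free ℤ M := inferInstance
  let r := Module.finrank ℤ M
  let b : Module.Basis (Fin r) ℤ M := Module.finBasis ℤ M
  have hex : ∀ i, ∃ g : G, (Submodule.torsion ℤ G).mkQ g = b i := fun i =>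
    (Submodule.torsion ℤ G).mkQ_surjective (b i)
  choose g hg using hex
  let Φ : (Fin r → Bool) → G ⧸ D := fun s =>
    (QuotientAddGroup.mk (∑ i, if s i then g i else 0) : G ⧸ D)
  have htor : ∀ x : G, (Submodule.torsion ℤ G).mkQ x = 0 → x ∈ D := by
    intro x hx
    rw [Submodule.mkQ_apply, Submodule.Quotient.mk_eq_zero, Submodule.mem_torsion_iff] at hx
    obtain ⟨⟨n, hn⟩, hnx⟩ := hx
    have hn0 : n ≠ 0 := nonZeroDivisors.ne_zero hn
    have hnx' : n • x = 0 := hnx
    apply ht x n.natAbs (Int.natAbs_pos.2 hn0)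
    rcases Int.natAbs_eq n with h | h
    · rw [← natCast_zsmul, ← h]
      exact hnx'
    · have h3 : ((n.natAbs : ℕ) : ℤ) = -n := by omega
      rw [← natCast_zsmul, h3, neg_zsmul, hnx', neg_zero]
  have hsur : Function.Surjective Φ := by
    intro x
    obtain ⟨y, rfl⟩ := QuotientAddGroup.mk_surjective x
    let n : Fin r → ℤ := fun i => b.repr ((Submodule.torsion ℤ G).mkQ y) i
    refine ⟨fun i => decide (Odd (n i)), ?_⟩
    show (QuotientAddGroup.mk (∑ i, if decide (Odd (n i)) = true then g i else 0) : G ⧸ D) =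
      QuotientAddGroup.mk y
    rw [QuotientAddGroup.eq]
    have e1 : -(∑ i, if decide (Odd (n i)) = true then g i else 0) + y =
        (y - ∑ i, n i • g i) + ∑ i, (n i • g i - if decide (Odd (n i)) = true then g i else 0) := by
      rw [Finset.sum_sub_distrib]
      abel
    rw [e1]
    apply D.add_mem
    · apply htor
      rw [map_sub, map_sum, sub_eq_zero]
      have e2 : ∀ i, (Submodule.torsion ℤ G).mkQ (n i • g i) = n i • b i := by
        intro i
        rw [map_smul, hg i]
      rw [Finset.sum_congr rfl fun i _ => e2 i]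
      exact (b.sum_repr _).symm
    · apply D.sum_mem
      intro i _
      by_cases ho : Odd (n i)
      · obtain ⟨k, hk⟩ := ho
        have ho : Odd (n i) := ⟨k, hk⟩
        rw [decide_eq_true ho, if_pos rfl, hk, add_zsmul, two_mul, add_zsmul, one_zsmul,
          add_sub_cancel_right]
        exact h2 _
      · have hd : ¬ decide (Odd (n i)) = true := by
          rw [decide_eq_true_iff]
          exact ho
        rw [if_neg hd, sub_zero]
        obtain ⟨k, hk⟩ := Int.not_odd_iff_even.1 ho
        rw [hk, add_zsmul]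
        exact h2 _
  have h3 := Nat.card_le_card_of_surjective Φ hsur
  rw [Nat.card_eq_fintype_card (α := Fin r → Bool), Fintype.card_fun, Fintype.card_bool,
    Fintype.card_fin] at h3
  exact h3

section ker

variable {a b : ℚ}

/-- **the rank, the Tate-Shafarevich group and the Selmer cocycles, from below** -/
theorem card_ker_le (hb : b ≠ 0) (hab : a ^ 2 - 4 * b ≠ 0) (hsq : ¬ IsSquare (a ^ 2 - 4 * b))
    (hbs : ¬ IsSquare b) [hfin : Finite (selCoc (Wt a b))] :
    Nat.card (selCoc (Wt a b)) ≤ 4 * (2 ^ Module.finrank ℤ (Wt a b).toAffine.Point *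
      Nat.card {x : Sha (Wt a b) // x + x = 0}) := by
  obtain ⟨e1, e2, hp12, hR, hne⟩ := exists_roots QB a b
  obtain ⟨n1, n2, n12⟩ := hne hb hab
  obtain ⟨j, hj, hjσ, hjf⟩ := exists_rat (Wt a b)
  have h2 : (2 : QB) ≠ 0 := two_ne_zero
  -- the roots are not rational
  have hirr : ∀ x : ℚ, algebraMap ℚ QB x ≠ e1 := by
    intro x hx
    apply hsq
    have hsum : e1 + e2 = -algebraMap ℚ QB a := by
      have h10 := hR.h2
      have h11 : ((Wt a b).baseChange QB).a₂ = algebraMap ℚ QB a := rfl
      rw [h11] at h10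
      linear_combination h10
    refine ⟨2 * x + a, (algebraMap ℚ QB).injective ?_⟩
    simp only [map_sub, map_mul, map_pow, map_add, map_ofNat]
    rw [← hp12, hx]
    have : algebraMap ℚ QB a = -(e1 + e2) := by linear_combination hsum
    rw [this]
    ring
  -- the point `(e1, 0)`
  have hn1 : ((Wt a b).baseChange QB).toAffine.Nonsingular e1 0 := hR.nons h2 n1 n2 n12 (by ring)
  set P1 : Pt (Wt a b) QB := .some e1 0 hn1 with hP1
  have hP1' : P1 + P1 = 0 := (hR.rot.add_self h2 hn1).2 rfl
  have hc : ∀ (g : (Wt a b).toAffine.Point) (Q : Pt (Wt a b) QB), j g = Q + Q →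
      (fun σ : QB ≃ₐ[ℚ] QB => act (Wt a b) σ.toAlgHom Q - Q) ∈ selCoc (Wt a b) := by
    intro g Q hQ
    apply cob_selCoc
    intro σ
    have e3 : act (Wt a b) σ.toAlgHom Q - Q + (act (Wt a b) σ.toAlgHom Q - Q) =
      (act (Wt a b) σ.toAlgHom Q + act (Wt a b) σ.toAlgHom Q) - (Q + Q) := by abel
    rw [e3, ← map_add, ← hQ, hjσ, sub_self]
  -- the point `(0, 0)`
  have hnT : (Wt a b).toAffine.Nonsingular 0 0 := by
    rw [Affine.nonsingular_iff]
    refine ⟨?_, Or.inl ?_⟩
    · rw [Affine.equation_iff]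
      show (0 : ℚ) ^ 2 + 0 * 0 * 0 + 0 * 0 = 0 ^ 3 + a * 0 ^ 2 + b * 0 + 0
      ring
    · show (0 : ℚ) * 0 ≠ 3 * 0 ^ 2 + 2 * a * 0 + b
      intro h
      apply hb
      linear_combination -h
  set T : (Wt a b).toAffine.Point := .some 0 0 hnT with hT
  have hT0 : T ≠ 0 := Affine.Point.some_ne_zero _
  have hTT : T + T = 0 := by
    apply Affine.Point.add_self_of_Y_eq
    show (0 : ℚ) = -0 - 0 * 0 - 0
    ring
  -- `T` is not twice a point
  have h4 : ∀ x : (Wt a b).toAffine.Point, x + x ≠ T := by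
    intro x hx
    rcases x with _ | ⟨u, v, hn⟩
    · exact hT0 (hx.symm.trans (add_zero _))
    · by_cases hv : v = v - 2 * v
      · have hv0 : v = 0 := by linarith
        have : (Affine.Point.some u v hn : (Wt a b).toAffine.Point) + .some u v hn = 0 := by
          apply Affine.Point.add_self_of_Y_eq
          show v = -v - 0 * u - 0
          rw [hv0]; ring
        rw [this] at hx
        exact hT0 hx.symm
      · have hY : v ≠ (Wt a b).toAffine.negY u v := by
          show v ≠ -v - 0 * u - 0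
          intro h; apply hv; linarith
        have hv0 : v ≠ 0 := fun h => hv (by rw [h]; ring)
        have he : v ^ 2 = u ^ 3 + a * u ^ 2 + b * u := by
          have := hn.1
          rw [Affine.equation_iff] at this
          have h' : v ^ 2 + 0 * u * v + 0 * v = u ^ 3 + a * u ^ 2 + b * u + 0 := this
          linear_combination h'
        rw [Affine.Point.add_self_of_Y_ne hY, hT, Affine.Point.some.injEq] at hx
        obtain ⟨hx1, -⟩ := hx
        rw [Affine.slope_of_Y_ne rfl hY] at hx1
        have hx2 : ((3 * u ^ 2 + 2 * a * u + b - 0 * v) / (v - (-v - 0 * u - 0))) ^ 2 +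
          0 * ((3 * u ^ 2 + 2 * a * u + b - 0 * v) / (v - (-v - 0 * u - 0))) - a - u - u = 0 := hx1
        apply hbs
        refine ⟨u, ?_⟩
        have e0 : v - (-v - 0 * u - 0) = 2 * v := by ring
        rw [e0] at hx2
        have hv2 : (2 * v) ≠ 0 := mul_ne_zero two_ne_zero hv0
        have hx3 : (3 * u ^ 2 + 2 * a * u + b) ^ 2 - (a + 2 * u) * (4 * v ^ 2) = 0 := by
          field_simp at hx2
          linear_combination hx2
        have hx4 : (u ^ 2 - b) ^ 2 = 0 := by
          rw [he] at hx3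
          linear_combination hx3
        have := pow_eq_zero_iff (two_ne_zero) |>.1 hx4
        linear_combination -this
  obtain ⟨QT, hQT⟩ := hR.div h2 n1 n2 n12 (j T)
  have hz : j (0 : (Wt a b).toAffine.Point) = P1 + P1 := by rw [hP1', map_zero]
  set f1 : selCoc (Wt a b) := ⟨_, hc 0 P1 hz⟩ with hf1
  set f2 : selCoc (Wt a b) := ⟨_, hc T QT hQT⟩ with hf2
  have hT2 : ∀ q : (Wt a b).toAffine.Point, T ≠ 0 + (q + q) := by
    intro q hq
    rw [zero_add] at hq
    exact h4 q hq.symm
  have k1 : f1 ≠ 0 := by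
    intro h
    have h' : ∀ σ : QB ≃ₐ[ℚ] QB, σ e1 = e1 := by
      intro σ
      have h5 : act (Wt a b) σ.toAlgHom P1 - P1 = 0 := congrFun (congrArg Subtype.val h) σ
      rw [sub_eq_zero, hP1, act_some, Affine.Point.some.injEq] at h5
      exact h5.1
    obtain ⟨y, hy⟩ := fix_mem (K := ℚ) e1 h'
    exact hirr y hy
  have hz0 : j (0 : (Wt a b).toAffine.Point) = 0 + 0 := by rw [map_zero, add_zero]
  have k2 : f2 ≠ 0 := by
    intro h
    obtain ⟨q, hq⟩ := diff_rat hj hjf hQT hz0 (fun σ => by
      have h5 : act (Wt a b) σ.toAlgHom QT - QT = 0 := congrFun (congrArg Subtype.val h) σ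
      rw [h5, map_zero, sub_zero])
    exact hT2 q hq
  have k3 : f2 ≠ f1 := by
    intro h
    obtain ⟨q, hq⟩ := diff_rat hj hjf hQT hz (fun σ => congrFun (congrArg Subtype.val h) σ)
    exact hT2 q hq
  have two0 : ∀ f : selCoc (Wt a b), f + f = 0 := by
    intro f
    apply Subtype.ext
    funext σ
    exact f.2.2.1 σ
  have k4 : f1 + f2 ≠ 0 := by
    intro h
    apply k3
    have : f2 = f1 + f2 - f1 := by abel
    rw [this, h, zero_sub]
    exact neg_eq_of_add_eq_zero_left (two0 f1)
  have k5 : f1 + f2 ≠ f1 := fun h => k2 (add_eq_left.1 h)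
  have k6 : f1 + f2 ≠ f2 := fun h => k1 (add_eq_right.1 h)
  -- the kernel
  set K : AddSubgroup (selCoc (Wt a b)) := (toShaC (Wt a b)).ker with hK
  have hexK : ∀ f : K, ∃ g : (Wt a b).toAffine.Point, ∃ Q : Pt (Wt a b) QB, j g = Q + Q ∧
      ∀ σ, (f.1 : (QB ≃ₐ[ℚ] QB) → Pt (Wt a b) QB) σ = act (Wt a b) σ.toAlgHom Q - Q := by
    intro f
    obtain ⟨P, hP⟩ := (toShaC_ker _ _).1 f.2
    obtain ⟨g, hg⟩ := hjf (P + P) (by
      intro σ
      have e3 := f.1.2.2.1 σ
      rw [hP σ] at e3
      rw [map_add]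
      have e4 : act (Wt a b) σ.toAlgHom P + act (Wt a b) σ.toAlgHom P =
          (act (Wt a b) σ.toAlgHom P - P + (act (Wt a b) σ.toAlgHom P - P)) + (P + P) := by abel
      rw [e4, e3, zero_add])
    exact ⟨g, P, hg, hP⟩
  choose g Qc hQc hcK using hexK
  -- the subgroup generated by `T` and the doubles
  let D : AddSubgroup (Wt a b).toAffine.Point :=
    { carrier := {x | ∃ q, x = q + q ∨ x = T + (q + q)}
      zero_mem' := ⟨0, Or.inl (add_zero 0).symm⟩
      add_mem' := by
        rintro x y ⟨q, hq⟩ ⟨r, hr⟩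
        rcases hq with hq | hq <;> rcases hr with hr | hr
        · exact ⟨q + r, Or.inl (by rw [hq, hr]; abel)⟩
        · exact ⟨q + r, Or.inr (by rw [hq, hr]; abel)⟩
        · exact ⟨q + r, Or.inr (by rw [hq, hr]; abel)⟩
        · refine ⟨q + r, Or.inl ?_⟩
          rw [hq, hr]
          have : T + (q + q) + (T + (r + r)) = (T + T) + (q + r + (q + r)) := by abel
          rw [this, hTT, zero_add]
      neg_mem' := by
        rintro x ⟨q, hq⟩
        rcases hq with hq | hq
        · exact ⟨-q, Or.inl (by rw [hq]; abel)⟩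
        · refine ⟨-q, Or.inr ?_⟩
          have hnT' : -T = T := neg_eq_of_add_eq_zero_left hTT
          rw [hq]
          have : -(T + (q + q)) = -T + (-q + -q) := by abel
          rw [this, hnT'] }
  have hD2 : ∀ q, q + q ∈ D := fun q => ⟨q, Or.inl rfl⟩
  have hDT : T ∈ D := ⟨0, Or.inr (by rw [add_zero, add_zero])⟩
  have hsame : ∀ (f : K) (g' : (Wt a b).toAffine.Point) (Q' : Pt (Wt a b) QB), j g' = Q' + Q' →
      (∀ σ, (f.1 : (QB ≃ₐ[ℚ] QB) → Pt (Wt a b) QB) σ = act (Wt a b) σ.toAlgHom Q' - Q') →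
      (QuotientAddGroup.mk (g f) : (Wt a b).toAffine.Point ⧸ D) = QuotientAddGroup.mk g' := by
    intro f g' Q' h1 h3
    obtain ⟨q, hq⟩ := diff_rat hj hjf h1 (hQc f) (fun σ => by rw [← h3 σ, ← hcK f σ])
    rw [QuotientAddGroup.eq]
    have e5 : -g f + g' = q + q := by
      rw [hq]
      abel
    rw [e5]
    exact hD2 q
  let φ : K →+ (Wt a b).toAffine.Point ⧸ D :=
    AddMonoidHom.mk' (fun f => (QuotientAddGroup.mk (g f) : (Wt a b).toAffine.Point ⧸ D)) (by
      intro f f'
      rw [hsame (f + f') (g f + g f') (Qc f + Qc f') (by rw [map_add, hQc f, hQc f']; abel) (by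
        intro σ
        have e6 : ((f + f' : K).1 : (QB ≃ₐ[ℚ] QB) → Pt (Wt a b) QB) σ =
            (f.1 : (QB ≃ₐ[ℚ] QB) → Pt (Wt a b) QB) σ +
            (f'.1 : (QB ≃ₐ[ℚ] QB) → Pt (Wt a b) QB) σ := rfl
        rw [e6, hcK f σ, hcK f' σ, map_add]
        abel)]
      rfl)
  have hφ : ∀ f, φ f = QuotientAddGroup.mk (g f) := fun f => rfl
  have hsurj : Function.Surjective φ := by
    intro x
    obtain ⟨y, rfl⟩ := QuotientAddGroup.mk_surjective x
    obtain ⟨Q, hQ⟩ := hR.div h2 n1 n2 n12 (j y)
    have hk : (⟨_, hc y Q hQ⟩ : selCoc (Wt a b)) ∈ K := by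
      rw [hK, toShaC_ker]
      exact ⟨Q, fun σ => rfl⟩
    refine ⟨⟨_, hk⟩, ?_⟩
    rw [hφ]
    exact hsame ⟨_, hk⟩ y Q hQ fun σ => rfl
  -- the elements of the kernel of `φ`
  have hf1K : f1 ∈ K := by
    rw [hK, toShaC_ker]
    exact ⟨P1, fun σ => rfl⟩
  have hf2K : f2 ∈ K := by
    rw [hK, toShaC_ker]
    exact ⟨QT, fun σ => rfl⟩
  have hm1 : φ ⟨f1, hf1K⟩ = 0 := by
    rw [hφ, hsame ⟨f1, hf1K⟩ 0 P1 hz fun σ => rfl]
    rfl
  have hm2 : φ ⟨f2, hf2K⟩ = 0 := by
    rw [hφ, hsame ⟨f2, hf2K⟩ T QT hQT fun σ => rfl]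
    exact (QuotientAddGroup.eq_zero_iff _).2 hDT
  have hKfin : Finite K := inferInstance

  -- the rational points of order two
  have hT2t : ∀ x : (Wt a b).toAffine.Point, x + x = 0 → x = 0 ∨ x = T := by
    intro x hx
    rcases x with _ | ⟨u, v, hn⟩
    · exact Or.inl rfl
    · right
      have hv0 : v = 0 := by
        by_contra hv
        have hY : v ≠ (Wt a b).toAffine.negY u v := by
          show v ≠ -v - 0 * u - 0
          intro h
          apply hv
          linarith
        rw [Affine.Point.add_self_of_Y_ne hY] at hx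
        exact Affine.Point.some_ne_zero _ hx
      subst hv0
      have he : (0 : ℚ) = u ^ 3 + a * u ^ 2 + b * u := by
        have := hn.1
        rw [Affine.equation_iff] at this
        have h' : (0 : ℚ) ^ 2 + 0 * u * 0 + 0 * 0 = u ^ 3 + a * u ^ 2 + b * u + 0 := this
        linear_combination h'
      have hu0 : u = 0 := by
        by_contra hu
        apply hsq
        have h5 : u ^ 2 + a * u + b = 0 := by
          have h6 : u * (u ^ 2 + a * u + b) = 0 := by linear_combination -he
          exact (mul_eq_zero.1 h6).resolve_left hu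
        exact ⟨2 * u + a, by linear_combination -4 * h5⟩
      subst hu0
      rfl
  -- the torsion
  have htD : ∀ (n : ℕ) (x : (Wt a b).toAffine.Point), 0 < n → n • x = 0 → x ∈ D := by
    intro n
    induction n using Nat.strong_induction_on with
    | _ n ih =>
      intro x hn hx
      rcases Nat.even_or_odd n with ⟨m, hm⟩ | ⟨m, hm⟩
      · have h5 : m • x + m • x = 0 := by rw [← add_nsmul, ← hm]; exact hx
        rcases hT2t _ h5 with h6 | h6
        · exact ih m (by omega) x (by omega) h6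
        · rcases Nat.even_or_odd m with ⟨k, hk⟩ | ⟨k, hk⟩
          · exfalso
            apply h4 (k • x)
            rw [← add_nsmul, ← hk]
            exact h6
          · refine ⟨-(k • x), Or.inr ?_⟩
            rw [← h6, hk, add_nsmul, one_nsmul, two_mul, add_nsmul]
            abel
      · refine ⟨-(m • x), Or.inl ?_⟩
        rw [hm, add_nsmul, one_nsmul, two_mul, add_nsmul] at hx
        have h5 : x = -(m • x + m • x) := by
          rw [eq_neg_iff_add_eq_zero, add_comm]
          exact hx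
        calc x = -(m • x + m • x) := h5
          _ = _ := by abel
  have hfg : AddGroup.FG (Wt a b).toAffine.Point := fg_Wt hb hab
  have hfinM : Module.Finite ℤ (Wt a b).toAffine.Point := Module.Finite.iff_addGroup_fg.mpr hfg
  have hrank : Nat.card ((Wt a b).toAffine.Point ⧸ D) ≤
      2 ^ Module.finrank ℤ (Wt a b).toAffine.Point :=
    quot_le D hD2 fun x n hn hx => htD n x hn hx
  -- the kernel of `φ` is small
  have hn0' : ((Wt a b).baseChange QB).toAffine.Nonsingular 0 0 := hR.nons h2 n1 n2 n12 (by ring)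
  have hactT : ∀ σ : QB ≃ₐ[ℚ] QB, act (Wt a b) σ.toAlgHom (.some 0 0 hn0' : Pt (Wt a b) QB) =
      .some 0 0 hn0' := by
    intro σ
    rw [act_some, Affine.Point.some.injEq]
    exact ⟨map_zero σ, map_zero σ⟩
  have hclaim : ∀ (F : selCoc (Wt a b)) (P0 : Pt (Wt a b) QB) (q : (Wt a b).toAffine.Point),
      (∀ σ, (F : (QB ≃ₐ[ℚ] QB) → Pt (Wt a b) QB) σ = act (Wt a b) σ.toAlgHom P0 - P0) →
      P0 + P0 = j (q + q) → F = 0 ∨ F = f1 := by
    intro F P0 q hF hP
    have hRR : P0 - j q + (P0 - j q) = 0 := by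
      have : P0 - j q + (P0 - j q) = (P0 + P0) - (j q + j q) := by abel
      rw [this, hP, map_add, sub_self]
    have hval : ∀ (R : Pt (Wt a b) QB), P0 - j q = R →
        ∀ σ, (F : (QB ≃ₐ[ℚ] QB) → Pt (Wt a b) QB) σ = act (Wt a b) σ.toAlgHom R - R := by
      intro R hRe σ
      rw [hF σ, ← hRe, map_sub, hjσ]
      abel
    rcases hR.tors h2 hRR with h5 | ⟨hn5, h5⟩ | ⟨hn5, h5⟩ | ⟨hn5, h5⟩
    · left
      apply Subtype.ext
      funext σ
      rw [hval 0 h5 σ, map_zero, sub_zero]
      rfl
    · left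
      apply Subtype.ext
      funext σ
      rw [hval _ h5 σ, hactT, sub_self]
      rfl
    · right
      apply Subtype.ext
      funext σ
      rw [hval _ h5 σ]
    · right
      apply Subtype.ext
      funext σ
      obtain ⟨hn6, h6⟩ := hR.add_two n1 hn0' hn1
      rw [hval _ h5 σ]
      have h7 : (.some e2 0 hn5 : Pt (Wt a b) QB) = .some 0 0 hn0' + P1 := h6.symm
      rw [h7, map_add, hactT]
      show _ = act (Wt a b) σ.toAlgHom P1 - P1
      abel
  have hker4 : Nat.card φ.ker ≤ 4 := by
    have hF : Fintype φ.ker := Fintype.ofFinite _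
    let u1 : φ.ker := ⟨⟨f1, hf1K⟩, hm1⟩
    let u2 : φ.ker := ⟨⟨f2, hf2K⟩, hm2⟩
    have hsub : (Finset.univ : Finset φ.ker) ⊆ ({0, u1, u2, u1 + u2} : Finset φ.ker) := by
      intro f _
      rw [Finset.mem_insert, Finset.mem_insert, Finset.mem_insert, Finset.mem_singleton]
      have h5 : (QuotientAddGroup.mk (g f.1) : (Wt a b).toAffine.Point ⧸ D) = 0 := f.2
      obtain ⟨q, hq⟩ := (QuotientAddGroup.eq_zero_iff _).1 h5
      rcases hq with hq | hq
      · rcases hclaim f.1.1 (Qc f.1) q (hcK f.1) (by rw [← hQc f.1, hq]) with h6 | h6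
        · left
          apply Subtype.ext
          apply Subtype.ext
          exact h6
        · right; left
          apply Subtype.ext
          apply Subtype.ext
          exact h6
      · rcases hclaim (f.1.1 + f2) (Qc f.1 + QT) (T + q) (by
          intro σ
          have e7 : ((f.1.1 + f2 : selCoc (Wt a b)) : (QB ≃ₐ[ℚ] QB) → Pt (Wt a b) QB) σ =
            (f.1.1 : (QB ≃ₐ[ℚ] QB) → Pt (Wt a b) QB) σ +
            (f2 : (QB ≃ₐ[ℚ] QB) → Pt (Wt a b) QB) σ := rfl
          have e8 : (f2 : (QB ≃ₐ[ℚ] QB) → Pt (Wt a b) QB) σ =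
            act (Wt a b) σ.toAlgHom QT - QT := rfl
          rw [e7, e8, hcK f.1 σ, map_add]
          abel) (by
          have e9 : Qc f.1 + QT + (Qc f.1 + QT) = (Qc f.1 + Qc f.1) + (QT + QT) := by abel
          rw [e9, ← hQc f.1, ← hQT, hq, ← map_add]
          congr 1
          abel) with h6 | h6
        · right; right; left
          apply Subtype.ext
          apply Subtype.ext
          show f.1.1 = f2
          have : f.1.1 = f.1.1 + f2 - f2 := by abel
          rw [this, h6, zero_sub]
          exact neg_eq_of_add_eq_zero_left (two0 f2)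
        · right; right; right
          apply Subtype.ext
          apply Subtype.ext
          show f.1.1 = f1 + f2
          have : f.1.1 = f.1.1 + f2 - f2 := by abel
          rw [this, h6, sub_eq_add_neg]
          congr 1
          exact neg_eq_of_add_eq_zero_left (two0 f2)
    have h5 := Finset.card_le_card hsub
    rw [Nat.card_eq_fintype_card]
    refine le_trans (le_of_eq (Finset.card_univ).symm) (h5.trans ?_)
    exact (Finset.card_insert_le _ _).trans (Nat.succ_le_succ ((Finset.card_insert_le _ _).trans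
      (Nat.succ_le_succ ((Finset.card_insert_le _ _).trans
        (Nat.succ_le_succ (Finset.card_singleton _).le)))))
  have hcardK : Nat.card K = Nat.card ((Wt a b).toAffine.Point ⧸ D) * Nat.card φ.ker := by
    rw [AddSubgroup.card_eq_card_quotient_mul_card_addSubgroup φ.ker]
    congr 1
    exact Nat.card_congr (QuotientAddGroup.quotientKerEquivOfSurjective φ hsurj).toEquiv
  -- the assembly
  have e1' : Nat.card {x : Sha (Wt a b) // x + x = 0} = Nat.card (toShaC (Wt a b)).range :=
    Nat.card_congr (Equiv.subtypeEquivRight (fun x => (toShaC_range hR n1 n2 n12 x).symm))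
  have e2' : Nat.card (selCoc (Wt a b)) = Nat.card (toShaC (Wt a b)).range * Nat.card K := by
    rw [AddSubgroup.card_eq_card_quotient_mul_card_addSubgroup K]
    congr 1
    exact Nat.card_congr (QuotientAddGroup.quotientKerEquivRange (toShaC (Wt a b))).toEquiv
  rw [e1', e2', hcardK]
  calc Nat.card (toShaC (Wt a b)).range *
        (Nat.card ((Wt a b).toAffine.Point ⧸ D) * Nat.card φ.ker)
      ≤ Nat.card (toShaC (Wt a b)).range *
        (2 ^ Module.finrank ℤ (Wt a b).toAffine.Point * 4) :=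
        Nat.mul_le_mul_left _ (Nat.mul_le_mul hrank hker4)
    _ = _ := by ring

end ker

/-- **the isogeny Selmer group, the rank and the Tate-Shafarevich group** -/
theorem sha_ge {A B : ℤ} (hB : ¬ IsSquare B) (hC : ¬ IsSquare (A ^ 2 - 4 * B))
    (hf1 : (SelS A B).Finite) (hf2 : (SelS (-2 * A) (A ^ 2 - 4 * B)).Finite) :
    (SelS (-2 * A) (A ^ 2 - 4 * B)).ncard ≤
      2 * (2 ^ Module.finrank ℤ (Wt (A : ℚ) (B : ℚ)).toAffine.Point *
        Nat.card {x : Sha (Wt (A : ℚ) (B : ℚ)) // x + x = 0}) := by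
  have hB0 : B ≠ 0 := by rintro rfl; exact hB ⟨0, by ring⟩
  have hC0 : A ^ 2 - 4 * B ≠ 0 := by intro h; rw [h] at hC; exact hC ⟨0, by ring⟩
  obtain ⟨h1, -⟩ := card_sel2 hB0 hC0 hf1 hf2
  have qb : (B : ℚ) ≠ 0 := by exact_mod_cast hB0
  have qab : (A : ℚ) ^ 2 - 4 * (B : ℚ) ≠ 0 := by exact_mod_cast hC0
  have k1 := card_ker_le (a := (A : ℚ)) (b := (B : ℚ)) qb qab (by
      intro h
      apply hC
      have h3 : IsSquare ((A ^ 2 - 4 * B : ℤ) : ℚ) := by
        push_cast
        exact h
      exact (Rat.isSquare_intCast_iff).1 h3) (by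
      intro h
      exact hB ((Rat.isSquare_intCast_iff).1 h))
  have k2 := card_ge (A := A) (B := B) hB0 hC0 hB
  omega

end Q44.TK
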