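import Pool.Agent.Q44.TK.Com
import Pool.Agent.Q44.TK.Grp
import Pool.Agent.Q44.TJ.RCT

/-!
# The local classes and the joint law for several curves
-/

set_option autoImplicit false

open scoped Classical

namespace Q44.TK

open Finset
open Q283.GM (RC Fam HM OkU sep rk cR)
open Pool.Agent.Y703.CQ (nr)
open Q44.TI Q44.TJ

/-! ### scaling -/

theorem Loc_t {F : Type} [Field F] {a b D D' z : ℤ} {t : F} (ht : t ≠ 0)
    (h : (D' : F) = D * t ^ 2) :
    Loc F (a * D') (b * D' ^ 2) z ↔ Loc F (a * D) (b * D ^ 2) z := by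
  constructor
  · rintro ⟨x, y, r, h1, h2, h3⟩
    refine ⟨x / t ^ 2, y / t ^ 3, r / t, div_ne_zero h1 (pow_ne_zero 2 ht), ?_, ?_⟩
    · push_cast at h2 ⊢
      rw [h] at h2
      field_simp
      linear_combination h2
    · rw [h3]
      field_simp
  · rintro ⟨x, y, r, h1, h2, h3⟩
    refine ⟨x * t ^ 2, y * t ^ 3, r * t, mul_ne_zero h1 (pow_ne_zero 2 ht), ?_, ?_⟩
    · push_cast at h2 ⊢
      rw [h]
      linear_combination t ^ 6 * h2
    · rw [h3]
      ring

theorem Loc_sc {F : Type} [Field F] {a b D D' z : ℤ} (hD : (D : F) ≠ 0) (hD' : (D' : F) ≠ 0)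
    (h : IsSquare ((D * D' : ℤ) : F)) :
    Loc F (a * D') (b * D' ^ 2) z ↔ Loc F (a * D) (b * D ^ 2) z := by
  obtain ⟨s, hs⟩ := h
  push_cast at hs
  have hs0 : s ≠ 0 := by
    rintro rfl
    rw [mul_zero] at hs
    exact mul_ne_zero hD hD' hs
  refine Loc_t (t := s / D) (div_ne_zero hs0 hD) ?_
  field_simp
  linear_combination hs

/-- the part supported on the bad primes only depends on the local class -/
theorem Un_loc {a b D D' : ℤ} (hD : D ≠ 0) (hD' : D' ≠ 0) (hpos : 0 < D * D')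
    (h : ∀ (p : ℕ) [Fact p.Prime], (p : ℤ) ∣ 2 * (b * (a ^ 2 - 4 * b)) →
      IsSquare ((D * D' : ℤ) : ℚ_[p])) : Un a b D' = Un a b D := by
  unfold Un
  ext z
  simp only [Set.mem_ofPred_eq]
  refine and_congr_right fun _ => and_congr_right fun _ => and_congr ?_ ?_
  · refine forall_congr' fun p => forall_congr' fun hp => forall_congr' fun hd => ?_
    exact Loc_sc (by exact_mod_cast hD) (by exact_mod_cast hD') (h p hd)
  · refine Loc_sc (by exact_mod_cast hD) (by exact_mod_cast hD') ?_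
    refine ⟨Real.sqrt ((D * D' : ℤ) : ℝ), ?_⟩
    rw [Real.mul_self_sqrt]
    exact_mod_cast hpos.le

variable {M : ℕ} {a b : Fin M → ℤ}

/-- the local class -/
def Same (a b : Fin M → ℤ) (d D : ℕ) : Prop := IsSquare ((d * D : ℕ) : ZMod (mM a b))

theorem sq_dvd {m l n : ℕ} (hl : l ∣ m) (h : IsSquare ((n : ℕ) : ZMod m)) :
    IsSquare ((n : ℕ) : ZMod l) := by
  have h1 := h.map (ZMod.castHom hl (ZMod l))
  rwa [map_natCast] at h1

theorem mod_eight {n : ℕ} (ho : Odd n) (h : IsSquare ((n : ℕ) : ZMod 8)) : n % 8 = 1 := by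
  have h1 : ∀ x y : ZMod 8, x = y * y → x = 0 ∨ x = 1 ∨ x = 4 := by decide
  obtain ⟨y, hy⟩ := h
  have h2 := h1 _ _ hy
  have h3 := Nat.odd_iff.1 ho
  rcases h2 with h2 | h2 | h2
  · rw [ZMod.natCast_eq_zero_iff] at h2
    omega
  · have h4 := (ZMod.natCast_eq_natCast_iff n 1 8).1 (by rw [h2]; rfl)
    have h5 : n % 8 = 1 % 8 := h4
    omega
  · have h4 := (ZMod.natCast_eq_natCast_iff n 4 8).1 (by rw [h2]; rfl)
    have h5 : n % 8 = 4 % 8 := h4
    omega

theorem Same.loc {d D : ℕ} (h : Same a b d D) (hd : d.Coprime (mM a b)) (hD : D.Coprime (mM a b))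
    (p : ℕ) [hp : Fact p.Prime] (hpN : (p : ℤ) ∣ 2 * NN a b) : IsSquare ((d * D : ℤ) : ℚ_[p]) := by
  have hdD : (d * D).Coprime (mM a b) := Nat.Coprime.mul_left hd hD
  have e : ((d : ℤ) * (D : ℤ) : ℤ) = ((d * D : ℕ) : ℤ) := by push_cast; ring
  by_cases h2 : p = 2
  · subst h2
    have h8 := mod_eight (odd_of_copM hdD) (sq_dvd (eight_mM a b) h)
    rw [e]
    exact padic_sq2 (by omega)
  · have hpN' : (p : ℤ) ∣ NN a b := by
      rcases (Nat.prime_iff_prime_int.1 hp.out).dvd_or_dvd hpN with h1 | h1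
      · exfalso
        have h5 : p ∣ 2 := by exact_mod_cast h1
        exact h2 ((Nat.prime_dvd_prime_iff_eq hp.out Nat.prime_two).1 h5)
      · exact h1
    have hpm := (dvd_mM hp.out h2).2 hpN'
    rw [e]
    refine padic_sq h2 ?_ ?_
    · intro hd'
      have h3 : p ∣ d * D := Int.natCast_dvd_natCast.1 hd'
      exact hp.out.one_lt.ne' (Nat.Coprime.eq_one_of_dvd (Nat.Coprime.coprime_dvd_left h3 hdD) hpm)
    · have := sq_dvd hpm h
      rwa [Int.cast_natCast]

theorem two_dvd_NN (k : Fin M) : 2 * (b k * (a k ^ 2 - 4 * b k)) ∣ 2 * NN a b :=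
  mul_dvd_mul_left 2 (dvd_NN k)

/-- the parts supported on the bad primes of the twists by `m D` and `m d` -/
theorem Un_same (hM : 0 < M) {d D : ℕ} (hd : ClaM a b d) (hD : ClaM a b D) (h : Same a b d D)
    (k : Fin M) {m : ℤ} (hm : m ≠ 0) :
    Un (a k) (b k) (m * D) = Un (a k) (b k) (m * d) ∧
    Un (-2 * a k) (a k ^ 2 - 4 * b k) (m * D) = Un (-2 * a k) (a k ^ 2 - 4 * b k) (m * d) := by
  have hd0 : ((d : ℕ) : ℤ) ≠ 0 := hd.1.ne_zero
  have hD0 : ((D : ℕ) : ℤ) ≠ 0 := hD.1.ne_zero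
  have hdp : (0 : ℤ) < d := lt_of_le_of_ne (Int.natCast_nonneg d) hd0.symm
  have hDp : (0 : ℤ) < D := lt_of_le_of_ne (Int.natCast_nonneg D) hD0.symm
  have cd := hd.cop hM
  have cD := hD.cop hM
  rw [Int.natAbs_natCast] at cd cD
  have hpos : 0 < m * d * (m * D) := by
    have e : m * (d : ℤ) * (m * D) = m ^ 2 * ((d : ℤ) * D) := by ring
    rw [e]
    positivity
  have key : ∀ (p : ℕ) [Fact p.Prime], (p : ℤ) ∣ 2 * NN a b →
      IsSquare ((m * d * (m * D) : ℤ) : ℚ_[p]) := by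
    intro p hp hpN
    have e : m * (d : ℤ) * (m * D) = m * m * ((d : ℤ) * D) := by ring
    rw [e, Int.cast_mul]
    exact IsSquare.mul ⟨(m : ℚ_[p]), by push_cast; ring⟩ (h.loc cd cD p hpN)
  constructor
  · refine Un_loc (mul_ne_zero hm hd0) (mul_ne_zero hm hD0) hpos fun p hp hd' => ?_
    exact key p (hd'.trans (two_dvd_NN k))
  · refine Un_loc (mul_ne_zero hm hd0) (mul_ne_zero hm hD0) hpos fun p hp hd' => ?_
    refine key p ?_
    have hP := Nat.prime_iff_prime_int.1 hp.out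
    rcases hP.dvd_or_dvd hd' with h1 | h1
    · exact h1.mul_right _
    · rcases (dvd_dual hp.out).1 h1 with h2 | h2
      · rw [h2]
        exact Dvd.intro _ rfl
      · exact (h2.trans (dvd_NN k)).mul_left 2

/-! ### the law -/

variable (hM : 0 < M) (hq : ∃ q, PasM a b q)

theorem crk_rk {S : Finset ℕ} (hS : ∀ p ∈ S, ActM a b p ∨ PasM a b p) (k : Fin M) :
    rk (rM a b hM hq).Φ (fd (a k) (b k)) S = crk (a k) (b k) S := by
  obtain ⟨q, hqq⟩ := hq
  obtain ⟨hb, hc⟩ := hqq.nsq k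
  have e : crk (a k) (b k) S = rk (rcl (a k) (b k) hb hc).Φ (fd (a k) (b k)) S :=
    (rk_eq (A_iff hb hc) S).symm
  rw [e]
  refine rk_congr _ fun p hp => ?_
  rw [AM_iff, A_iff]
  constructor
  · intro h
    exact h.act k
  · intro h
    rcases hS p hp with h1 | h1
    · exact h1
    · exact absurd (h1.pas k) (h.not_pas (ne_of_nsq hb))

/-- the separation of the members -/
def SepM (a b : Fin M → ℤ) (m : Fin M → ℤ) (k l : Fin M) : Prop := HM fun p => ActM a b p ∧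
  ∑ u ∈ symmDiff (pr (m k)) (pr (m l)), nr p u + fd (a k) (b k) p + fd (a l) (b l) p ≠ 0

theorem hm_congr {w w' : ℕ → Prop} (h : HM w) (hw : ∀ p, p.Prime → w p → w' p) : HM w' :=
  HM_mono h hw

include hM hq in
/-- **the joint law in a local class** -/
theorem lawM (m : Fin M → ℤ) (hm : ∀ k, ClaM a b (m k))
    (hsep : ∀ k l, k ≠ l → SepM a b m k l) (r : Fin M → ℕ) {d : ℕ} (hd : ClaM a b d) :
    Filter.Tendsto (fun X : ℕ => (((Icc 1 X).filter fun D : ℕ => (ClaM a b D ∧ Same a b d D) ∧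
        ∀ k, crk (a k) (b k) (symmDiff (pr D) (pr (m k))) = r k).card : ℝ) /
      (((Icc 1 X).filter fun D : ℕ => ClaM a b D ∧ Same a b d D).card : ℝ)) Filter.atTop
      (nhds (cR r)) := by
  have hpos : 0 < mM a b := (rM a b hM hq).pos
  have : NeZero (mM a b) := ⟨hpos.ne'⟩
  have hcd := hd.cop hM
  rw [Int.natAbs_natCast] at hcd
  have hW : OkU (univ.biUnion fun k => pr (m k)) fun k => pr (m k) := by
    refine ⟨fun u hu => ?_, fun k => Finset.subset_biUnion_of_mem (fun k => pr (m k))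
      (Finset.mem_univ k)⟩
    obtain ⟨k, -, hk⟩ := Finset.mem_biUnion.1 hu
    have h1 := (hm k).pr u hk
    rcases h1 with h1 | h1
    · exact ⟨h1.1, (h1.act ⟨0, hM⟩).two_ne⟩
    · exact ⟨h1.1, (h1.pas ⟨0, hM⟩).two_ne⟩
  have hHM : ∀ k l, k ≠ l → HM fun p => (rM a b hM hq).Φ.A p ∧
      sep (fun k => fd (a k) (b k)) (fun k => pr (m k)) k l p ≠ 0 := by
    intro k l hkl
    refine hm_congr (hsep k l hkl) fun p _ h => ?_
    exact ⟨(AM_iff hM hq p).2 h.1, h.2⟩
  have hdD : ∀ D : ℕ, ClaM a b D → (GT (hF (mM a b)) (hF (mM a b) d) D.primeFactors ↔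
      Same a b d D) := by
    intro D hD
    have hcD := hD.cop hM
    rw [Int.natAbs_natCast] at hcD
    have hsq := Int.squarefree_natCast.1 hD.1
    unfold GT
    rw [hF_sum _ fun p hp => ?_, Nat.prod_primeFactors_of_squarefree hsq, hF_eq hcd hcD]
    · exact Iff.rfl
    · exact Nat.Coprime.coprime_dvd_left (Nat.dvd_of_mem_primeFactors hp) hcD
  have hR : Rch (rM a b hM hq).Φ (hF (mM a b)) (hF (mM a b) d) := by
    refine ⟨d.primeFactors, fun p hp => ?_, ?_⟩
    · exact (PM_iff hM hq p).2 (((claM_iff d).1 hd).2 p hp)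
    · rw [hdD d hd]
      exact ⟨(d : ZMod (mM a b)), by push_cast; ring⟩
  refine (law_D Fm_two (rM a b hM hq).ok r (fun k => fd (a k) (b k)) _ _ hW hHM
    (hF (mM a b)) hR).congr fun X => ratio (fun D => ?_) (fun D => ?_) _
  · have e : pr (D : ℤ) = D.primeFactors := by
      unfold pr
      rw [Int.natAbs_natCast]
    constructor
    · rintro ⟨⟨h1, h2⟩, h3⟩
      have hC := (CD_iff hM hq D).1 h1
      refine ⟨⟨hC, (hdD D hC).1 h2⟩, fun k => ?_⟩
      rw [← h3 k, e, crk_rk hM hq]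
      intro p hp
      rcases Finset.mem_symmDiff.1 hp with h | h
      · exact ((claM_iff D).1 hC).2 p h.1
      · exact (hm k).pr p h.1
    · rintro ⟨⟨hC, h2⟩, h3⟩
      refine ⟨⟨(CD_iff hM hq D).2 hC, (hdD D hC).2 h2⟩, fun k => ?_⟩
      rw [← h3 k, e, crk_rk hM hq]
      intro p hp
      rcases Finset.mem_symmDiff.1 hp with h | h
      · exact ((claM_iff D).1 hC).2 p h.1
      · exact (hm k).pr p h.1
  · constructor
    · rintro ⟨h1, h2⟩
      have hC := (CD_iff hM hq D).1 h1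
      exact ⟨hC, (hdD D hC).1 h2⟩
    · rintro ⟨hC, h2⟩
      exact ⟨(CD_iff hM hq D).2 hC, (hdD D hC).2 h2⟩

include hM hq in
/-- the local classes have positive relative density -/
theorem posM {d : ℕ} (hd : ClaM a b d) : ∃ (η : ℝ) (X₀ : ℕ), 0 < η ∧ ∀ X : ℕ, X₀ ≤ X →
    η * (((Icc 1 X).filter fun D : ℕ => ClaM a b D).card : ℝ) ≤
      (((Icc 1 X).filter fun D : ℕ => ClaM a b D ∧ Same a b d D).card : ℝ) := by
  have hpos : 0 < mM a b := (rM a b hM hq).pos
  have : NeZero (mM a b) := ⟨hpos.ne'⟩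
  have hcd := hd.cop hM
  rw [Int.natAbs_natCast] at hcd
  have hdD : ∀ D : ℕ, ClaM a b D → (GT (hF (mM a b)) (hF (mM a b) d) D.primeFactors ↔
      Same a b d D) := by
    intro D hD
    have hcD := hD.cop hM
    rw [Int.natAbs_natCast] at hcD
    have hsq := Int.squarefree_natCast.1 hD.1
    unfold GT
    rw [hF_sum _ fun p hp => ?_, Nat.prod_primeFactors_of_squarefree hsq, hF_eq hcd hcD]
    · exact Iff.rfl
    · exact Nat.Coprime.coprime_dvd_left (Nat.dvd_of_mem_primeFactors hp) hcD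
  have hR : Rch (rM a b hM hq).Φ (hF (mM a b)) (hF (mM a b) d) := by
    refine ⟨d.primeFactors, fun p hp => ?_, ?_⟩
    · exact (PM_iff hM hq p).2 (((claM_iff d).1 hd).2 p hp)
    · rw [hdD d hd]
      exact ⟨(d : ZMod (mM a b)), by push_cast; ring⟩
  obtain ⟨η, X₀, hη, h⟩ := pos_D Fm_two (rM a b hM hq).ok (hF (mM a b)) hR
  refine ⟨η, X₀, hη, fun X hX => ?_⟩
  have h1 := h X hX
  have e1 : ((Icc 1 X).filter fun D : ℕ => CD (rM a b hM hq).Φ D).card =
      ((Icc 1 X).filter fun D : ℕ => ClaM a b D).card :=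
    cardf (fun D => CD_iff hM hq D) _
  have e2 : ((Icc 1 X).filter fun D : ℕ => CD (rM a b hM hq).Φ D ∧
      GT (hF (mM a b)) (hF (mM a b) d) D.primeFactors).card =
      ((Icc 1 X).filter fun D : ℕ => ClaM a b D ∧ Same a b d D).card := by
    refine cardf (fun D => ?_) _
    constructor
    · rintro ⟨h1, h2⟩
      have hC := (CD_iff hM hq D).1 h1
      exact ⟨hC, (hdD D hC).1 h2⟩
    · rintro ⟨hC, h2⟩
      exact ⟨(CD_iff hM hq D).2 hC, (hdD D hC).2 h2⟩
  rw [← e1, ← e2]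
  exact h1

include hM hq in
/-- the size of the class -/
theorem sizeM : ∃ (c δ : ℝ) (X₀ : ℕ), 0 < c ∧ 0 < δ ∧ ∀ X : ℕ, X₀ ≤ X →
    c * X * (Real.log X) ^ (-1 + δ : ℝ) ≤
      (((Icc 1 X).filter fun D : ℕ => ClaM a b D).card : ℝ) := by
  obtain ⟨c, X₀, h1, h2⟩ := size_D (rM a b hM hq).ok
  refine ⟨c, (rM a b hM hq).δ, X₀, h1, (rM a b hM hq).ok.pos, fun X hX => ?_⟩
  refine (h2 X hX).trans (le_of_eq ?_)
  congr 1
  exact cardf (fun D => CD_iff hM hq D) _

end Q44.TK
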