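import Pool.Agent.Q44.TK.Quad

/-!
# Many primes modulo which an element of a number field is not a square
-/

set_option autoImplicit false
set_option linter.unusedSectionVars false

open scoped Classical

namespace Q44.TK

open Finset Filter Topology NumberField Polynomial
open Q283.GM (HM)
open Pool.Agent.H921R2.TatePole (W Lam Bdd W_sub_Lam_bdd hc R R_eq_hc R_le hom_finite extend_hom w
  w_nonneg w_summable bddmul_summable sum_R_bdd)

/-- a finite set of primes does not matter -/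
theorem hm_fin {w : ℕ → Prop} (B : Finset ℕ) (h : HM fun p => w p ∨ p ∈ B) : HM w := by
  obtain ⟨θ, C, hθ, h1⟩ := h
  refine ⟨θ, C + ∑ p ∈ B, (1 : ℝ) / p, hθ, fun y hy => ?_⟩
  have h2 := h1 y hy
  have h3 : ∑ p ∈ (range (y + 1)).filter (fun p => p.Prime ∧ (w p ∨ p ∈ B)), (1 : ℝ) / p ≤
      ∑ p ∈ (range (y + 1)).filter (fun p => p.Prime ∧ w p), (1 : ℝ) / p +
        ∑ p ∈ B, (1 : ℝ) / p := by
    have h4 : (range (y + 1)).filter (fun p => p.Prime ∧ (w p ∨ p ∈ B)) ⊆
        (range (y + 1)).filter (fun p => p.Prime ∧ w p) ∪ B := by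
      intro p hp
      obtain ⟨h5, h6, h7⟩ := mem_filter.1 hp
      rcases h7 with h7 | h7
      · exact mem_union_left _ (mem_filter.2 ⟨h5, h6, h7⟩)
      · exact mem_union_right _ h7
    refine (Finset.sum_le_sum_of_subset_of_nonneg h4 fun p _ _ => by positivity).trans ?_
    have h5 := Finset.sum_union_inter
      (s₁ := (range (y + 1)).filter (fun p => p.Prime ∧ w p)) (s₂ := B) (f := fun p : ℕ => (1 : ℝ) / p)
    have h6 : 0 ≤ ∑ p ∈ (range (y + 1)).filter (fun p => p.Prime ∧ w p) ∩ B, (1 : ℝ) / p :=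
      Finset.sum_nonneg fun p _ => by positivity
    linarith
  have h4 := h2.trans ((le_of_eq (Q283.GM.sumf_congr (fun _ => Iff.rfl) _ _)).trans h3)
  linarith

variable {K : Type} [Field K] [NumberField K]

/-- **many primes modulo which an element of a number field is not a square** -/
theorem hm_nonsq {θ : 𝓞 K} (hθ : ¬ IsSquare (θ : K)) {v : ℕ → Prop} (B : Finset ℕ)
    (hw : ∀ p : ℕ, p.Prime → p ∉ B → ∀ φ : 𝓞 K →+* ZMod p, ¬ IsSquare (φ θ) → v p) : HM v := by
  obtain ⟨L, iF, iN, N, hN, hcard⟩ := two_homs hθ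
  have hθ0 : θ ≠ 0 := by
    rintro rfl
    apply hθ
    exact ⟨0, by rw [mul_zero]; exact map_zero (algebraMap (𝓞 K) K)⟩
  set N1 : ℕ := Ideal.absNorm (Ideal.span {θ}) with hN1
  have hN10 : N1 ≠ 0 := by
    rw [hN1, Ne, Ideal.absNorm_eq_zero_iff, Ideal.span_singleton_eq_bot]
    exact hθ0
  have hN1m : (N1 : 𝓞 K) ∈ Ideal.span {θ} := Ideal.absNorm_mem _
  obtain ⟨θ', hθ'⟩ := Ideal.mem_span_singleton.1 hN1m
  set Bad : Finset ℕ := B ∪ N.natAbs.primeFactors ∪ N1.primeFactors with hBad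
  refine hm_fin Bad ?_
  set n : ℕ := Module.finrank ℚ K with hn
  have hn0 : (0 : ℝ) < n := by exact_mod_cast Module.finrank_pos
  -- the comparison for one prime
  have hpt : ∀ p : Nat.Primes, (R K p : ℝ) - 1 / 2 * (R L p : ℝ) ≤
      n * (if v p ∨ (p : ℕ) ∈ Bad then 1 else 0) := by
    intro p
    have hRL : (0 : ℝ) ≤ R L p := Nat.cast_nonneg _
    by_cases h : v p ∨ (p : ℕ) ∈ Bad
    · rw [if_pos h, mul_one]
      have : (R K p : ℝ) ≤ n := by exact_mod_cast R_le p
      linarith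
    · rw [if_neg h, mul_zero]
      rw [not_or] at h
      obtain ⟨h1, h2⟩ := h
      rw [hBad, mem_union, mem_union, not_or, not_or] at h2
      obtain ⟨⟨h2, h3⟩, h4⟩ := h2
      have hpN : ¬ ((p : ℕ) : ℤ) ∣ N := by
        intro hd
        exact h3 (Nat.mem_primeFactors.2 ⟨p.prop, Int.natCast_dvd.1 hd, Int.natAbs_ne_zero.2 hN⟩)
      have h5 := hcard p hpN
      have h6 : Nat.card (SH θ p) = hc (𝓞 K) p := by
        unfold SH hc
        refine Nat.card_congr (Equiv.subtypeUnivEquiv fun φ => ⟨?_, ?_⟩)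
        · by_contra hns
          exact h1 (hw p p.prop h2 φ hns)
        · intro h0
          apply h4
          refine Nat.mem_primeFactors.2 ⟨p.prop, ?_, hN10⟩
          rw [← ZMod.natCast_eq_zero_iff]
          have := congrArg φ hθ'
          rw [map_mul, h0, zero_mul, map_natCast] at this
          exact this
      rw [h6, ← R_eq_hc, ← R_eq_hc] at h5
      have h7 : (2 : ℝ) * R K p ≤ R L p := by exact_mod_cast h5
      linarith
  -- the series
  have hser : ∀ x : ℝ, 1 < x → ∑' p : Nat.Primes, ((R K p : ℝ) - 1) * w x p -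
      1 / 2 * ∑' p : Nat.Primes, ((R L p : ℝ) - 1) * w x p + 1 / 2 * W x ≤
      n * Gw (fun p => v p ∨ p ∈ Bad) x := by
    intro x hx
    have s1 : Summable (fun p : Nat.Primes => ((R K p : ℝ) - 1) * w x p) :=
      bddmul_summable hx (C := Module.finrank ℚ K + 1) fun p => by
        rw [abs_le]
        have a1 : (R K p : ℝ) ≤ Module.finrank ℚ K := by exact_mod_cast R_le p
        have a2 : (0 : ℝ) ≤ R K p := Nat.cast_nonneg _
        have a3 : (0 : ℝ) ≤ Module.finrank ℚ K := Nat.cast_nonneg _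
        constructor <;> linarith
    have s2 : Summable (fun p : Nat.Primes => ((R L p : ℝ) - 1) * w x p) :=
      bddmul_summable hx (C := Module.finrank ℚ L + 1) fun p => by
        rw [abs_le]
        have a1 : (R L p : ℝ) ≤ Module.finrank ℚ L := by exact_mod_cast R_le p
        have a2 : (0 : ℝ) ≤ R L p := Nat.cast_nonneg _
        have a3 : (0 : ℝ) ≤ Module.finrank ℚ L := Nat.cast_nonneg _
        constructor <;> linarith
    have s3 := w_summable hx
    have s4 := summable_w (fun p => v p ∨ p ∈ Bad) hx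
    have e1 : ∑' p : Nat.Primes, ((R K p : ℝ) - 1) * w x p -
      1 / 2 * ∑' p : Nat.Primes, ((R L p : ℝ) - 1) * w x p + 1 / 2 * W x =
      ∑' p : Nat.Primes, (((R K p : ℝ) - 1) * w x p - 1 / 2 * (((R L p : ℝ) - 1) * w x p) +
        1 / 2 * w x p) := by
      have e2 : W x = ∑' p, w x p := rfl
      rw [e2, ← tsum_mul_left, ← tsum_mul_left, ← s1.tsum_sub (s2.mul_left (1 / 2)),
        ← (s1.sub (s2.mul_left (1 / 2))).tsum_add (s3.mul_left (1 / 2))]
    rw [e1]
    unfold Gw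
    rw [← tsum_mul_left]
    refine Summable.tsum_le_tsum (fun p => ?_)
      ((s1.sub (s2.mul_left (1 / 2))).add (s3.mul_left (1 / 2))) (s4.mul_left (n : ℝ))
    have e3 : ((R K p : ℝ) - 1) * w x p - 1 / 2 * (((R L p : ℝ) - 1) * w x p) + 1 / 2 * w x p =
        ((R K p : ℝ) - 1 / 2 * (R L p : ℝ)) * w x p := by ring
    have e4 : gw (fun p => v p ∨ p ∈ Bad) x p =
        (if v p ∨ (p : ℕ) ∈ Bad then 1 else 0) * w x p := by
      unfold gw w
      by_cases h : v p ∨ (p : ℕ) ∈ Bad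
      · rw [if_pos h, if_pos h, one_mul]
      · rw [if_neg h, if_neg h, zero_mul]
    rw [e3, e4, ← mul_assoc]
    exact mul_le_mul_of_nonneg_right (hpt p) (w_nonneg x p)
  obtain ⟨C1, hC1⟩ := sum_R_bdd (K := K)
  obtain ⟨C2, hC2⟩ := sum_R_bdd (K := L)
  obtain ⟨C3, hC3⟩ := W_sub_Lam_bdd
  refine hm_of_dir (c := 1 / (2 * n)) (C := (C1 + 1 / 2 * C2 + 1 / 2 * C3) / n) (by positivity) ?_
  filter_upwards [hC1, hC2, hC3, self_mem_nhdsWithin] with x h1 h2 h3 hx
  have h4 := hser x hx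
  have h5 := (abs_le.1 h1).1
  have h6 := (abs_le.1 h2).2
  have h7 := (abs_le.1 h3).1
  have h8 : 1 / 2 * Lam x - (C1 + 1 / 2 * C2 + 1 / 2 * C3) ≤
      n * Gw (fun p => v p ∨ p ∈ Bad) x := by
    linarith
  have h9 : 1 / (2 * (n : ℝ)) * Lam x - (C1 + 1 / 2 * C2 + 1 / 2 * C3) / n =
      (1 / 2 * Lam x - (C1 + 1 / 2 * C2 + 1 / 2 * C3)) / n := by
    field_simp
  rw [h9, div_le_iff₀ hn0]
  linarith

end Q44.TK
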