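import Pool.Agent.Q44.TI.Fin

/-!
# The common class of several curves
-/

set_option autoImplicit false

open scoped Classical

namespace Q44.TK

open Finset
open Q283.GM (RC Fam)
open Q44.TI

variable {M : ℕ} {a b : Fin M → ℤ}

/-- the product of the discriminants -/
def NN (a b : Fin M → ℤ) : ℤ := ∏ k, (b k * (a k ^ 2 - 4 * b k))

/-- the primes which are active for all curves -/
def ActM (a b : Fin M → ℤ) (p : ℕ) : Prop :=
  p.Prime ∧ p % 8 = 1 ∧ ¬ (p : ℤ) ∣ NN a b ∧ ∀ l : ℕ, l.Prime → (l : ℤ) ∣ NN a b → IsSquare (l : ZMod p)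

/-- the primes which are passive for all curves -/
def PasM (a b : Fin M → ℤ) (p : ℕ) : Prop :=
  p.Prime ∧ ∀ k, ¬ IsSquare ((b k : ℤ) : ZMod p) ∧ ¬ IsSquare ((a k ^ 2 - 4 * b k : ℤ) : ZMod p)

theorem dvd_NN (k : Fin M) : b k * (a k ^ 2 - 4 * b k) ∣ NN a b :=
  Finset.dvd_prod_of_mem (fun k => b k * (a k ^ 2 - 4 * b k)) (Finset.mem_univ k)

theorem ActM.act {p : ℕ} (h : ActM a b p) (k : Fin M) : Act (a k) (b k) p :=
  ⟨h.1, h.2.1, fun hd => h.2.2.1 (hd.trans (dvd_NN k)), fun l hl hd => h.2.2.2 l hl (hd.trans (dvd_NN k))⟩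

theorem PasM.pas {p : ℕ} (h : PasM a b p) (k : Fin M) : Pas (a k) (b k) p := ⟨h.1, h.2 k⟩

theorem PasM.ne {p : ℕ} (h : PasM a b p) (k : Fin M) : b k ≠ 0 ∧ a k ^ 2 - 4 * b k ≠ 0 :=
  ⟨fun h0 => (h.pas k).nB (by rw [h0]; exact dvd_zero _),
    fun h0 => (h.pas k).nC (by rw [h0]; exact dvd_zero _)⟩

theorem PasM.nsq {p : ℕ} (h : PasM a b p) (k : Fin M) :
    ¬ IsSquare (b k) ∧ ¬ IsSquare (a k ^ 2 - 4 * b k) := by
  refine ⟨fun h0 => (h.2 k).1 ?_, fun h0 => (h.2 k).2 ?_⟩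
  · exact h0.map (Int.castRingHom (ZMod p))
  · exact h0.map (Int.castRingHom (ZMod p))

theorem PasM.nN {p : ℕ} (h : PasM a b p) : ¬ (p : ℤ) ∣ NN a b := by
  intro hd
  obtain ⟨k, -, hk⟩ := (Prime.dvd_finsetProd_iff (Nat.prime_iff_prime_int.1 h.1) _).1 hd
  rcases (Nat.prime_iff_prime_int.1 h.1).dvd_or_dvd hk with h1 | h1
  · exact (h.pas k).nB h1
  · exact (h.pas k).nC h1

theorem PasM.NN0 {p : ℕ} (h : PasM a b p) : NN a b ≠ 0 := fun h0 => h.nN (by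
  rw [h0]
  exact dvd_zero _)

/-- the modulus -/
def mM (a b : Fin M → ℤ) : ℕ := 8 * (NN a b).natAbs

theorem mM_pos (h : NN a b ≠ 0) : 0 < mM a b := by
  unfold mM
  have := Int.natAbs_pos.2 h
  omega

theorem eight_mM (a b : Fin M → ℤ) : 8 ∣ mM a b := Dvd.intro _ rfl

theorem dvd_mM {l : ℕ} (hl : l.Prime) (h2 : l ≠ 2) : l ∣ mM a b ↔ (l : ℤ) ∣ NN a b := by
  unfold mM
  rw [Int.natCast_dvd]
  constructor
  · intro h
    rcases hl.dvd_mul.1 h with h1 | h1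
    · exfalso
      have h3 : l ∣ 2 ^ 3 := by simpa using h1
      exact h2 ((Nat.prime_dvd_prime_iff_eq hl Nat.prime_two).1 (hl.dvd_of_dvd_pow h3))
    · exact h1
  · intro h
    exact h.mul_left 8

theorem four_dvd {n : ℤ} (h : n ∣ NN a b) : 4 * n.natAbs ∣ mM a b := by
  unfold mM
  obtain ⟨t, ht⟩ := Int.natAbs_dvd_natAbs.2 h
  rw [ht]
  exact ⟨2 * t, by ring⟩

theorem b_dvd (k : Fin M) : b k ∣ NN a b := (Dvd.intro _ rfl : b k ∣ _).trans (dvd_NN k)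

theorem c_dvd (k : Fin M) : a k ^ 2 - 4 * b k ∣ NN a b :=
  (Dvd.intro_left _ rfl : a k ^ 2 - 4 * b k ∣ b k * (a k ^ 2 - 4 * b k)).trans (dvd_NN k)

/-- the active classes -/
noncomputable def cA (a b : Fin M → ℤ) : Finset ℕ := (range (mM a b)).filter fun r =>
  r % 8 = 1 ∧ r.Coprime (mM a b) ∧ ∀ l ∈ (mM a b).primeFactors, l ≠ 2 → IsSquare (r : ZMod l)

/-- the passive classes -/
noncomputable def cB (a b : Fin M → ℤ) : Finset ℕ := (range (mM a b)).filter fun r =>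
  r.Coprime (mM a b) ∧ ∀ k, jacobiSym (b k) r = -1 ∧ jacobiSym (a k ^ 2 - 4 * b k) r = -1

theorem odd_of_copM {r : ℕ} (h : r.Coprime (mM a b)) : Odd r := by
  rw [← Nat.not_even_iff_odd]
  intro he
  have h1 : 2 ∣ r := he.two_dvd
  have h2 : 2 ∣ mM a b := (by norm_num : 2 ∣ 8).trans (eight_mM a b)
  have := Nat.dvd_gcd h1 h2
  rw [h] at this
  omega

theorem PasM.cop {p : ℕ} (h : PasM a b p) (hM : 0 < M) : p.Coprime (mM a b) := by
  rw [h.1.coprime_iff_not_dvd]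
  intro hd
  exact h.nN ((dvd_mM h.1 (h.pas ⟨0, hM⟩).two_ne).1 hd)

theorem ActM.cop {p : ℕ} (h : ActM a b p) : p.Coprime (mM a b) := by
  rw [h.1.coprime_iff_not_dvd]
  intro hd
  have h2 : p ≠ 2 := by
    rintro rfl
    have := h.2.1
    omega
  exact h.2.2.1 ((dvd_mM h.1 h2).1 hd)

/-- the family of the residue classes -/
noncomputable def rM (a b : Fin M → ℤ) (hM : 0 < M) (hq : ∃ q, PasM a b q) : RC where
  m := mM a b
  𝒜 := cA a b
  ℬ := cB a b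
  h4 := (by norm_num : 4 ∣ 8).trans (eight_mM a b)
  pos := mM_pos (by
    obtain ⟨q, hq⟩ := hq
    exact hq.NN0)
  hA := by
    intro a ha
    obtain ⟨h1, h2, h3, -⟩ := mem_filter.1 ha
    exact ⟨mem_range.1 h1, h3, by omega⟩
  h1 := by
    have hpos : 0 < mM a b := mM_pos (by
      obtain ⟨q, hq⟩ := hq
      exact hq.NN0)
    obtain ⟨k, hk⟩ := eight_mM a b
    refine mem_filter.2 ⟨mem_range.2 (by omega), by norm_num, Nat.coprime_one_left _, fun l _ _ => ?_⟩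
    rw [Nat.cast_one]
    exact IsSquare.one
  hB := by
    intro b hb
    obtain ⟨h1, h2, -⟩ := mem_filter.1 hb
    exact ⟨mem_range.1 h1, h2⟩
  hBn := by
    obtain ⟨p, hp⟩ := hq
    have hpos : 0 < mM a b := mM_pos hp.NN0
    have hcop := hp.cop hM
    have hpo := odd_of_copM hcop
    have hcop' : (p % mM a b).Coprime (mM a b) := cop_mod.2 hcop
    have hpo' := odd_of_copM hcop'
    have : Fact p.Prime := ⟨hp.1⟩
    refine ⟨p % mM a b, mem_filter.2 ⟨mem_range.2 (Nat.mod_lt _ hpos), hcop', fun k => ⟨?_, ?_⟩⟩⟩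
    · rw [jac_mod (four_dvd (b_dvd k)) hpo hpo', ← jacobiSym.legendreSym.to_jacobiSym,
        legendreSym.eq_neg_one_iff]
      exact (hp.2 k).1
    · rw [jac_mod (four_dvd (c_dvd k)) hpo hpo', ← jacobiSym.legendreSym.to_jacobiSym,
        legendreSym.eq_neg_one_iff]
      exact (hp.2 k).2
  dis := by
    rw [Finset.disjoint_left]
    intro r hr hr'
    obtain ⟨q, hq⟩ := hq
    have hpos : 0 < mM a b := mM_pos hq.NN0
    obtain ⟨-, h8, hc, hsq⟩ := mem_filter.1 hr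
    obtain ⟨-, -, hj⟩ := mem_filter.1 hr'
    have hj := (hj ⟨0, hM⟩).1
    have h1 : jacobiSym (b ⟨0, hM⟩) r = 1 := by
      refine jac_one' h8 (hq.ne _).1 fun l hl hlB h2 => ?_
      have hlm : l ∣ mM a b := (dvd_mM hl h2).2 (hlB.trans (b_dvd _))
      exact ⟨hsq l (Nat.mem_primeFactors.2 ⟨hl, hlm, hpos.ne'⟩) h2, hc.coprime_dvd_right hlm⟩
    rw [h1] at hj
    norm_num at hj

variable (hM : 0 < M) (hq : ∃ q, PasM a b q)

theorem AM_iff (p : ℕ) : (rM a b hM hq).Φ.A p ↔ ActM a b p := by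
  have hpos : 0 < mM a b := (rM a b hM hq).pos
  have e : (rM a b hM hq).Φ.A p ↔ p.Prime ∧ p % mM a b ∈ cA a b := Iff.rfl
  rw [e]
  unfold ActM cA
  refine and_congr_right fun hp => ?_
  have hpf : Fact p.Prime := ⟨hp⟩
  rw [mem_filter, Nat.mod_mod_of_dvd p (eight_mM a b), cop_mod]
  constructor
  · rintro ⟨-, h8, hc, hsq⟩
    have hp2 : p ≠ 2 := by rintro rfl; omega
    refine ⟨h8, fun hd => ?_, fun l hl hd => ?_⟩
    · have h1 := (dvd_mM hp hp2).2 hd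
      exact hp.one_lt.ne' (Nat.Coprime.eq_one_of_dvd hc h1)
    · by_cases h2 : l = 2
      · subst h2
        exact_mod_cast (ZMod.exists_sq_eq_two_iff hp2).2 (Or.inl h8)
      · have hlm := (dvd_mM hl h2).2 hd
        have h3 := hsq l (Nat.mem_primeFactors.2 ⟨hl, hlm, hpos.ne'⟩) h2
        have hlf : Fact l.Prime := ⟨hl⟩
        rw [ZMod.exists_sq_eq_prime_iff_of_mod_four_eq_one (by omega) h2]
        have e1 : ((p % mM a b : ℕ) : ZMod l) = (p : ZMod l) := by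
          rw [← ZMod.natCast_mod, Nat.mod_mod_of_dvd p hlm, ZMod.natCast_mod]
        rwa [e1] at h3
  · rintro ⟨h8, hd, hsq⟩
    have hp2 : p ≠ 2 := by rintro rfl; omega
    refine ⟨mem_range.2 (Nat.mod_lt _ hpos), h8, ?_, fun l hl h2 => ?_⟩
    · rw [hp.coprime_iff_not_dvd]
      exact fun h => hd ((dvd_mM hp hp2).1 h)
    · obtain ⟨hlp, hlm, -⟩ := Nat.mem_primeFactors.1 hl
      have hlf : Fact l.Prime := ⟨hlp⟩
      have h3 := hsq l hlp ((dvd_mM hlp h2).1 hlm)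
      rw [ZMod.exists_sq_eq_prime_iff_of_mod_four_eq_one (by omega) h2] at h3
      have e1 : ((p % mM a b : ℕ) : ZMod l) = (p : ZMod l) := by
        rw [← ZMod.natCast_mod, Nat.mod_mod_of_dvd p hlm, ZMod.natCast_mod]
      rwa [e1]

theorem BM_iff (p : ℕ) : (rM a b hM hq).Φ.B p ↔ PasM a b p := by
  have hpos : 0 < mM a b := (rM a b hM hq).pos
  have e : (rM a b hM hq).Φ.B p ↔ p.Prime ∧ p % mM a b ∈ cB a b := Iff.rfl
  rw [e]
  unfold cB
  constructor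
  · rintro ⟨hp, h⟩
    obtain ⟨-, hc, h1⟩ := mem_filter.1 h
    have hpf : Fact p.Prime := ⟨hp⟩
    have hpo' := odd_of_copM hc
    have hpo := odd_of_copM (cop_mod.1 hc)
    refine ⟨hp, fun k => ?_⟩
    obtain ⟨h1, h2⟩ := h1 k
    rw [jac_mod (four_dvd (b_dvd k)) hpo hpo', ← jacobiSym.legendreSym.to_jacobiSym,
        legendreSym.eq_neg_one_iff] at h1
    rw [jac_mod (four_dvd (c_dvd k)) hpo hpo', ← jacobiSym.legendreSym.to_jacobiSym,
        legendreSym.eq_neg_one_iff] at h2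
    exact ⟨h1, h2⟩
  · intro h
    have hp := h.1
    have hpf : Fact p.Prime := ⟨hp⟩
    have hc := h.cop hM
    have hpo := odd_of_copM hc
    have hc' : (p % mM a b).Coprime (mM a b) := cop_mod.2 hc
    have hpo' := odd_of_copM hc'
    refine ⟨hp, mem_filter.2 ⟨mem_range.2 (Nat.mod_lt _ hpos), hc', fun k => ⟨?_, ?_⟩⟩⟩
    · rw [jac_mod (four_dvd (b_dvd k)) hpo hpo', ← jacobiSym.legendreSym.to_jacobiSym,
        legendreSym.eq_neg_one_iff]
      exact (h.2 k).1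
    · rw [jac_mod (four_dvd (c_dvd k)) hpo hpo', ← jacobiSym.legendreSym.to_jacobiSym,
        legendreSym.eq_neg_one_iff]
      exact (h.2 k).2

theorem PM_iff (p : ℕ) : (rM a b hM hq).Φ.P p ↔ ActM a b p ∨ PasM a b p := by
  unfold Fam.P
  rw [AM_iff, BM_iff]

/-- the common class -/
def ClaM (a b : Fin M → ℤ) (D : ℤ) : Prop :=
  Squarefree D ∧ ∀ p : ℕ, p.Prime → (p : ℤ) ∣ D → ActM a b p ∨ PasM a b p

theorem ClaM.cla {D : ℤ} (h : ClaM a b D) (k : Fin M) : Cla (a k) (b k) D :=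
  ⟨h.1, fun p hp hd => (h.2 p hp hd).imp (fun h => h.act k) fun h => h.pas k⟩

theorem ClaM.pr {D : ℤ} (h : ClaM a b D) : ∀ p ∈ pr D, ActM a b p ∨ PasM a b p := fun p hp =>
  h.2 p (Nat.prime_of_mem_primeFactors hp) (Int.natCast_dvd.2 (Nat.dvd_of_mem_primeFactors hp))

theorem claM_iff (D : ℕ) : ClaM a b D ↔ Squarefree D ∧ ∀ p ∈ D.primeFactors,
    ActM a b p ∨ PasM a b p := by
  unfold ClaM
  rw [Int.squarefree_natCast]
  constructor
  · rintro ⟨h1, h2⟩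
    exact ⟨h1, fun p hp => h2 p (Nat.prime_of_mem_primeFactors hp)
      (Int.natCast_dvd_natCast.2 (Nat.dvd_of_mem_primeFactors hp))⟩
  · rintro ⟨h1, h2⟩
    exact ⟨h1, fun p hp hd => h2 p (Nat.mem_primeFactors.2
      ⟨hp, Int.natCast_dvd_natCast.1 hd, h1.ne_zero⟩)⟩

theorem CD_iff (D : ℕ) : (Squarefree D ∧ ∀ p ∈ D.primeFactors, (rM a b hM hq).Φ.P p) ↔
    ClaM a b D := by
  rw [claM_iff]
  refine and_congr_right fun _ => forall_congr' fun p => forall_congr' fun _ => ?_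
  exact PM_iff hM hq p

/-- the members are coprime to the modulus -/
theorem ClaM.cop {D : ℤ} (h : ClaM a b D) (hM : 0 < M) : D.natAbs.Coprime (mM a b) := by
  rw [Nat.coprime_comm]
  refine Nat.Coprime.symm (Nat.coprime_of_dvd fun p hp h1 h2 => ?_)
  rcases h.2 p hp (Int.natCast_dvd.2 h1) with h3 | h3
  · exact hp.one_lt.ne' (Nat.Coprime.eq_one_of_dvd h3.cop h2)
  · exact hp.one_lt.ne' (Nat.Coprime.eq_one_of_dvd (h3.cop hM) h2)

end Q44.TK
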