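import Pool.Agent.Q44.TI.Sha

/-!
# The map from the Selmer group of the isogeny to the Selmer cocycles
-/

set_option autoImplicit false
set_option linter.unusedSectionVars false

open scoped Classical

namespace Q44.TK

open WeierstrassCurve
open Q44.TI
open Pool.Agent.W262.SH (QB Pt act IsCoc IsCob LocTriv shaCoc cob Sha)
open Pool.Agent.TH841.SH Pool.Agent.Y668

/-- the cocycle attached to the square root `s` and the point `T` -/
noncomputable def fz {W : WeierstrassCurve ℚ} (s : QB) (T : Pt W QB) (σ : QB ≃ₐ[ℚ] QB) : Pt W QB :=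
  if σ s = s then 0 else T

section loc

variable {K Ω : Type} [Field K] [Field Ω] [Algebra ℚ K] [Algebra K Ω] [Algebra ℚ Ω]
  [IsScalarTower ℚ K Ω] [IsAlgClosed Ω]

/-- the cocycle is locally trivial -/
theorem loc_triv {A B : ℤ} (hB : B ≠ 0) (hC : A ^ 2 - 4 * B ≠ 0) {z : ℤ}
    (hL : Loc K (-2 * A) (A ^ 2 - 4 * B) z) {s : QB} (hs : s ^ 2 = ((z : ℤ) : QB))
    (hn : ((Wt (A : ℚ) (B : ℚ)).baseChange QB).toAffine.Nonsingular 0 0) (ι : QB →ₐ[ℚ] Ω) :
    ∃ P : Pt (Wt (A : ℚ) (B : ℚ)) Ω, ∀ (τ : Ω ≃ₐ[K] Ω) (σ : QB ≃ₐ[ℚ] QB),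
      (τ.toAlgHom.restrictScalars ℚ).comp ι = ι.comp σ.toAlgHom →
      act (Wt (A : ℚ) (B : ℚ)) ι (fz s (.some 0 0 hn) σ) =
        act (Wt (A : ℚ) (B : ℚ)) (τ.toAlgHom.restrictScalars ℚ) P - P := by
  have qb : (B : ℚ) ≠ 0 := by exact_mod_cast hB
  have qab : (A : ℚ) ^ 2 - 4 * (B : ℚ) ≠ 0 := by exact_mod_cast hC
  have : CharZero Ω := charZero_of_injective_algebraMap (algebraMap ℚ Ω).injective
  have h2 : (2 : Ω) ≠ 0 := two_ne_zero
  obtain ⟨e1, e2, hp12, hR, hne⟩ := exists_roots Ω (A : ℚ) (B : ℚ)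
  obtain ⟨n1, n2, n12⟩ := hne qb qab
  obtain ⟨x', y', r, hx0, hy, hx⟩ := hL
  have hsum : e1 + e2 = -(A : Ω) := by
    have h10 := hR.h2
    have h11 : ((Wt (A : ℚ) (B : ℚ)).baseChange Ω).a₂ = algebraMap ℚ Ω A := rfl
    rw [h11, map_intCast] at h10
    linear_combination h10
  have hprod : e1 * e2 = (B : Ω) := by rw [hp12, map_intCast]
  set t : Ω := ι s * algebraMap K Ω r with ht
  have ht2 : t ^ 2 = algebraMap K Ω x' := by
    rw [ht, mul_pow, ← map_pow ι, hs, map_intCast, hx, map_mul, map_pow, map_intCast]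
  have hx0' : algebraMap K Ω x' ≠ 0 := by
    rw [Ne, map_eq_zero]
    exact hx0
  have ht0 : t ≠ 0 := by
    intro h
    rw [h] at ht2
    exact hx0' (by rw [← ht2]; ring)
  set y : Ω := algebraMap K Ω y' with hyd
  have hy2 : y ^ 2 = t ^ 2 * ((t ^ 2 - A) ^ 2 - 4 * B) := by
    have h3 := congrArg (algebraMap K Ω) hy
    simp only [map_pow, map_add, map_mul, map_intCast] at h3
    rw [← ht2] at h3
    rw [hyd, h3]
    push_cast
    ring
  set u : Ω := (t ^ 2 - A + y / t) / 2 with hu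
  set u' : Ω := (t ^ 2 - A - y / t) / 2 with hu'
  have hyt : (y / t) ^ 2 = (t ^ 2 - A) ^ 2 - 4 * B := by
    rw [div_pow, hy2]
    field_simp
  have huu : u * u' = B := by
    rw [hu, hu']
    linear_combination (-1 / 4) * hyt
  have hus : u + u' = t ^ 2 - A := by
    rw [hu, hu']
    ring
  have hB' : (B : Ω) ≠ 0 := by exact_mod_cast hB
  have hu0 : u ≠ 0 := by
    intro h
    rw [h, zero_mul] at huu
    exact hB' huu.symm
  have hq : u ^ 2 + A * u + B = t ^ 2 * u := by
    rw [← huu]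
    linear_combination u * hus
  have he : (t * u) ^ 2 = (u - 0) * (u - e1) * (u - e2) := by
    have e3 : (u - 0) * (u - e1) * (u - e2) = u * (u ^ 2 - (e1 + e2) * u + e1 * e2) := by ring
    rw [e3, hsum, hprod]
    linear_combination -u * hq
  have hv : t * u ≠ 0 := mul_ne_zero ht0 hu0
  have hnP := hR.nons h2 n1 n2 n12 he
  have hnT : ((Wt (A : ℚ) (B : ℚ)).baseChange Ω).toAffine.Nonsingular 0 0 :=
    hR.nons h2 n1 n2 n12 (by ring)
  refine ⟨.some u (t * u) hnP, fun τ σ h => ?_⟩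
  have hcomm : ∀ w : QB, τ (ι w) = ι (σ w) := fun w => DFunLike.congr_fun h w
  have hfix : ∀ w : K, τ (algebraMap K Ω w) = algebraMap K Ω w := fun w => τ.commutes w
  have hA : τ (A : Ω) = A := map_intCast τ A
  have hτy : τ y = y := hfix y'
  unfold fz
  by_cases hσ : σ s = s
  · rw [if_pos hσ, map_zero]
    have hτ : τ t = t := by
      rw [ht, map_mul, hcomm, hσ, hfix]
    have hτu : τ u = u := by
      rw [hu, map_div₀, map_add, map_sub, map_pow, map_div₀, hτ, hA, hτy, map_ofNat]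
    symm
    rw [sub_eq_zero, act_some, Affine.Point.some.injEq]
    refine ⟨hτu, ?_⟩
    show τ (t * u) = t * u
    rw [map_mul, hτ, hτu]
  · rw [if_neg hσ]
    have hσs : σ s = -s := by
      have h6 : (σ s) ^ 2 = s ^ 2 := by
        rw [← map_pow, hs, map_intCast]
      rcases sq_eq_sq_iff_eq_or_eq_neg.1 h6 with h7 | h7
      · exact absurd h7 hσ
      · exact h7
    have hτ : τ t = -t := by
      rw [ht, map_mul, hcomm, hσs, hfix, map_neg, neg_mul]
    have hτu : τ u = u' := by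
      rw [hu, hu', map_div₀, map_add, map_sub, map_pow, map_div₀, hτ, hA, hτy, map_ofNat, neg_sq,
        div_neg]
      ring
    obtain ⟨X, Y, hn', e3, -, -, -, e4, e5⟩ := hR.trans hnP hv hnT
    have e6 : act (Wt (A : ℚ) (B : ℚ)) ι (.some 0 0 hn) = .some 0 0 hnT := by
      rw [act_some, Affine.Point.some.injEq]
      exact ⟨map_zero ι, map_zero ι⟩
    rw [e6, eq_sub_iff_add_eq, add_comm, e3, act_some, Affine.Point.some.injEq]
    constructor
    · show X = τ u
      rw [hτu, e4]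
      have : u' = B / u := by
        rw [eq_div_iff hu0]
        linear_combination huu
      rw [this, ← hprod]
      ring
    · show Y = τ (t * u)
      rw [map_mul, hτ, hτu, e5]
      have : u' = B / u := by
        rw [eq_div_iff hu0]
        linear_combination huu
      rw [this, ← hprod]
      field_simp
      ring

end loc

end Q44.TK
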