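import Pool.Agent.H921R2.TatePole.Homs
import Pool.Agent.H921R2.TatePole.Dirichlet
import Pool.Agent.Q283.GM.RC

/-!
# From Dirichlet series to lower bounds of Mertens type
-/

set_option autoImplicit false

open scoped Classical

namespace Q44.TK

open Finset Filter Topology
open Q283.GM (HM mer_cls)
open Pool.Agent.H921R2.TatePole (W Lam Bdd W_sub_Lam_bdd summable_primes_rpow)

/-- the terms of the series -/
noncomputable def gw (w : ℕ → Prop) (x : ℝ) (p : Nat.Primes) : ℝ :=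
  if w (p : ℕ) then ((p : ℕ) : ℝ) ^ (-x) else 0

/-- the series over the primes with the property `w` -/
noncomputable def Gw (w : ℕ → Prop) (x : ℝ) : ℝ := ∑' p : Nat.Primes, gw w x p

theorem gw_nonneg (w : ℕ → Prop) (x : ℝ) (p : Nat.Primes) : 0 ≤ gw w x p := by
  unfold gw
  split_ifs
  · positivity
  · exact le_rfl

theorem summable_w (w : ℕ → Prop) {x : ℝ} (hx : 1 < x) : Summable (gw w x) := by
  refine Summable.of_nonneg_of_le (gw_nonneg w x) (fun p => ?_) (summable_primes_rpow hx)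
  unfold gw
  split_ifs
  · exact le_rfl
  · positivity

theorem Gw_add (w : ℕ → Prop) {x : ℝ} (hx : 1 < x) :
    Gw w x + Gw (fun p => ¬ w p) x = W x := by
  refine ((summable_w w hx).tsum_add (summable_w (fun p => ¬ w p) hx)).symm.trans ?_
  refine tsum_congr fun p => ?_
  unfold gw
  by_cases h : w (p : ℕ)
  · rw [if_pos h, if_neg (not_not.2 h), add_zero]
  · rw [if_neg h, if_pos h, zero_add]

/-- the finite sums are below the series -/
theorem fin_le (w : ℕ → Prop) {y : ℕ} {σ : ℝ} (hσ : 0 < σ) {B : ℝ} (hB0 : 0 ≤ B)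
    (hB : ∀ p : ℕ, p.Prime → p ≤ y → (p : ℝ) ^ σ ≤ B) :
    ∑ p ∈ (range (y + 1)).filter (fun p => p.Prime ∧ w p), (1 : ℝ) / p ≤ B * Gw w (1 + σ) := by
  have h1 : ∀ p ∈ (range (y + 1)).filter (fun p => p.Prime ∧ w p), (1 : ℝ) / p ≤
      B * (p : ℝ) ^ (-(1 + σ)) := by
    intro p hp
    obtain ⟨h2, h3, -⟩ := mem_filter.1 hp
    have h4 := hB p h3 (by have := mem_range.1 h2; omega)
    have h5 : (0 : ℝ) < p := by exact_mod_cast h3.pos
    have h6 : (p : ℝ) ^ (-(1 + σ)) = 1 / p * ((p : ℝ) ^ σ)⁻¹ := by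
      rw [neg_add, Real.rpow_add h5, Real.rpow_neg_one, Real.rpow_neg h5.le, one_div]
    rw [h6]
    have h7 : 0 < (p : ℝ) ^ σ := Real.rpow_pos_of_pos h5 σ
    have h8 : 1 ≤ B * ((p : ℝ) ^ σ)⁻¹ := by
      rw [← div_eq_mul_inv, le_div_iff₀ h7, one_mul]
      exact h4
    calc (1 : ℝ) / p = 1 / p * 1 := by ring
      _ ≤ 1 / p * (B * ((p : ℝ) ^ σ)⁻¹) := mul_le_mul_of_nonneg_left h8 (by positivity)
      _ = _ := by ring
  refine (Finset.sum_le_sum h1).trans ?_
  rw [← Finset.mul_sum]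
  refine mul_le_mul_of_nonneg_left ?_ hB0
  have hs := summable_w w (x := 1 + σ) (by linarith)
  set s := (range (y + 1)).filter (fun p => p.Prime ∧ w p) with hs'
  have hmem : ∀ p ∈ s, p.Prime := fun p hp => (mem_filter.1 hp).2.1
  set g : s → Nat.Primes := fun p => ⟨p.1, hmem p.1 p.2⟩ with hg
  set t : Finset Nat.Primes := s.attach.image g with ht
  have e : ∑ p ∈ s, (p : ℝ) ^ (-(1 + σ)) = ∑ p ∈ t, gw w (1 + σ) p := by
    refine Eq.trans ?_ (Finset.sum_image (s := s.attach) (g := g) (f := gw w (1 + σ)) ?_).symm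
    · rw [← Finset.sum_attach]
      refine Finset.sum_congr rfl fun p _ => ?_
      have e2 : gw w (1 + σ) (g p) = if w (p : ℕ) then ((p : ℕ) : ℝ) ^ (-(1 + σ)) else 0 := rfl
      rw [e2, if_pos]
      exact (mem_filter.1 p.2).2.2
    · intro p _ q _ h
      exact Subtype.ext (congrArg (fun r : Nat.Primes => (r : ℕ)) h)
  rw [e]
  exact hs.sum_le_tsum t fun p _ => gw_nonneg w _ p

/-- the reciprocals of all primes -/
theorem mer_one : ∃ C : ℝ, ∀ y : ℕ, 3 ≤ y →
    Real.log (Real.log y) - C ≤ ∑ p ∈ (range (y + 1)).filter (fun p => p.Prime), (1 : ℝ) / p := by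
  obtain ⟨C, hC⟩ := mer_cls (m := 1) one_pos {0} (by
    intro a ha
    rw [mem_singleton.1 ha]
    exact ⟨one_pos, Nat.coprime_one_right 0⟩)
  refine ⟨C, fun y hy => ?_⟩
  have h1 := (abs_le.1 (hC y hy)).1
  rw [Finset.card_singleton, Nat.totient_one, Nat.cast_one, div_one, one_mul] at h1
  have e : (range (y + 1)).filter (fun p => p.Prime ∧ p % 1 ∈ ({0} : Finset ℕ)) =
      (range (y + 1)).filter (fun p => p.Prime) := by
    refine Finset.filter_congr fun p _ => ?_
    rw [Nat.mod_one]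
    simp
  rw [e] at h1
  linarith

theorem split_sum (w : ℕ → Prop) (y : ℕ) {i1 : DecidablePred fun p : ℕ => p.Prime}
    {i2 : DecidablePred fun p : ℕ => p.Prime ∧ w p}
    {i3 : DecidablePred fun p : ℕ => p.Prime ∧ ¬ w p} :
    ∑ p ∈ @Finset.filter ℕ (fun p => p.Prime) i1 (range (y + 1)), (1 : ℝ) / p =
    ∑ p ∈ @Finset.filter ℕ (fun p => p.Prime ∧ w p) i2 (range (y + 1)), (1 : ℝ) / p +
    ∑ p ∈ @Finset.filter ℕ (fun p => p.Prime ∧ ¬ w p) i3 (range (y + 1)), (1 : ℝ) / p := by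
  rw [Finset.sum_filter, Finset.sum_filter, Finset.sum_filter, ← Finset.sum_add_distrib]
  refine Finset.sum_congr rfl fun p _ => ?_
  by_cases h1 : p.Prime <;> by_cases h2 : w p <;> simp [h1, h2]

/-- **from the Dirichlet series to the reciprocals** -/
theorem hm_of_dir {w : ℕ → Prop} {c C : ℝ} (hc : 0 < c)
    (h : ∀ᶠ x : ℝ in 𝓝[>] 1, c * Lam x - C ≤ Gw w x) : HM w := by
  obtain ⟨C0, h0⟩ := W_sub_Lam_bdd
  obtain ⟨C1, h1⟩ := mer_one
  -- we may assume `c ≤ 1`
  obtain ⟨c', hc', hc1, hcc⟩ : ∃ c' : ℝ, 0 < c' ∧ c' < 1 ∧ c' ≤ c :=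
    ⟨min c (1 / 2), lt_min hc (by norm_num), (min_le_right _ _).trans_lt (by norm_num),
      min_le_left _ _⟩
  -- the factor
  obtain ⟨ε, hε, hε1, hB⟩ : ∃ ε : ℝ, 0 < ε ∧ ε < 1 ∧ Real.exp ε * (1 - c') ≤ 1 - c' / 2 := by
    have hcont : Tendsto (fun ε : ℝ => Real.exp ε * (1 - c')) (𝓝[>] 0) (𝓝 (1 - c')) := by
      have : Tendsto (fun ε : ℝ => Real.exp ε * (1 - c')) (𝓝 0) (𝓝 (Real.exp 0 * (1 - c'))) :=
        (Real.continuous_exp.tendsto 0).mul_const _
      rw [Real.exp_zero, one_mul] at this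
      exact this.mono_left nhdsWithin_le_nhds
    have h2 := hcont.eventually (gt_mem_nhds (show 1 - c' < 1 - c' / 2 by linarith))
    have h3 : ∀ᶠ ε : ℝ in 𝓝[>] 0, ε < 1 :=
      (eventually_lt_nhds one_pos).filter_mono nhdsWithin_le_nhds
    obtain ⟨ε, ⟨h4, h5⟩, h6⟩ := ((h2.and h3).and self_mem_nhdsWithin).exists
    exact ⟨ε, h6, h5, h4.le⟩
  have hlog : ∀ᶠ x : ℝ in 𝓝[>] 1, 0 ≤ Lam x := by
    have h2 : ∀ᶠ x : ℝ in 𝓝[>] 1, x < 2 :=
      (eventually_lt_nhds one_lt_two).filter_mono nhdsWithin_le_nhds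
    filter_upwards [h2, self_mem_nhdsWithin] with x h3 h4
    have h5 : (1 : ℝ) < x := h4
    unfold Lam
    apply Real.log_nonneg
    rw [le_div_iff₀ (by linarith)]
    linarith
  have hall := (h.and h0).and (hlog.and self_mem_nhdsWithin)
  rw [eventually_nhdsWithin_iff] at hall
  obtain ⟨ρ, hρ, hball⟩ := Metric.eventually_nhds_iff.1 hall
  -- the estimate for large `y`
  have key : ∃ (D : ℝ) (Y : ℕ), ∀ y : ℕ, Y ≤ y → 3 ≤ y →
      c' / 2 * Real.log (Real.log y) - D ≤
        ∑ p ∈ (range (y + 1)).filter (fun p => p.Prime ∧ w p), (1 : ℝ) / p := by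
    have hl : Tendsto (fun y : ℕ => Real.log (y : ℝ)) atTop atTop :=
      Real.tendsto_log_atTop.comp tendsto_natCast_atTop_atTop
    obtain ⟨Y, hY⟩ := eventually_atTop.1 (hl.eventually_gt_atTop (ε / ρ))
    refine ⟨C1 + Real.exp ε * ((1 - c') * Real.log (1 / ε) + C0 + C), Y, fun y hyY hy => ?_⟩
    have hy3 : (3 : ℝ) ≤ y := by exact_mod_cast hy
    have hly : 1 < Real.log y := by
      rw [Real.lt_log_iff_exp_lt (by linarith)]
      have := Real.exp_one_lt_d9
      linarith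
    have hly0 : 0 < Real.log y := by linarith
    set σ : ℝ := ε / Real.log y with hσ
    have hσ0 : 0 < σ := by positivity
    have hσρ : σ < ρ := by
      rw [hσ, div_lt_iff₀ hly0]
      have := (div_lt_iff₀ hρ).1 (hY y hyY)
      linarith
    obtain ⟨⟨a1, a2⟩, a3, -⟩ := hball (y := 1 + σ) (by
      rw [Real.dist_eq, add_sub_cancel_left, abs_of_pos hσ0]
      exact hσρ) (by
      show (1 : ℝ) < 1 + σ
      linarith)
    have hx1 : (1 : ℝ) < 1 + σ := by linarith
    have hLam : Lam (1 + σ) = Real.log (Real.log y) + Real.log (1 / ε) := by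
      unfold Lam
      rw [add_sub_cancel_left, hσ, one_div_div, div_eq_mul_one_div,
        Real.log_mul hly0.ne' (by positivity)]
    -- the primes without the property
    have hB1 : ∀ p : ℕ, p.Prime → p ≤ y → (p : ℝ) ^ σ ≤ Real.exp ε := by
      intro p hp hpy
      have h5 : (0 : ℝ) < p := by exact_mod_cast hp.pos
      have hpy' : (p : ℝ) ≤ y := by exact_mod_cast hpy
      calc (p : ℝ) ^ σ ≤ (y : ℝ) ^ σ := Real.rpow_le_rpow h5.le hpy' hσ0.le
        _ = Real.exp ε := by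
          rw [Real.rpow_def_of_pos (by linarith), hσ]
          congr 1
          field_simp
    have b1 := fin_le (fun p => ¬ w p) hσ0 (Real.exp_pos ε).le hB1
    have b2 := Gw_add w hx1
    have b3 := (abs_le.1 a2).2
    have b4 : Gw (fun p => ¬ w p) (1 + σ) ≤ (1 - c') * Lam (1 + σ) + C0 + C := by
      have : c' * Lam (1 + σ) ≤ c * Lam (1 + σ) := mul_le_mul_of_nonneg_right hcc a3
      linarith
    have b5 := mul_le_mul_of_nonneg_left b4 (Real.exp_pos ε).le
    have b6 := h1 y hy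
    rw [split_sum w y] at b6
    have b10 := b6.trans (add_le_add (le_refl _) b1)
    rw [hLam] at b5
    have hll : 0 ≤ Real.log (Real.log y) := Real.log_nonneg hly.le
    have b8 : Real.exp ε * ((1 - c') * Real.log (Real.log y)) ≤
        (1 - c' / 2) * Real.log (Real.log y) := by
      rw [← mul_assoc]
      exact mul_le_mul_of_nonneg_right hB hll
    have b9 : Real.exp ε * ((1 - c') * (Real.log (Real.log y) + Real.log (1 / ε)) + C0 + C) =
        Real.exp ε * ((1 - c') * Real.log (Real.log y)) +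
        Real.exp ε * ((1 - c') * Real.log (1 / ε) + C0 + C) := by ring
    rw [b9] at b5
    linarith
  obtain ⟨D, Y, hD⟩ := key
  refine ⟨c' / 2, max D (c' / 2 * Real.log (Real.log (max Y 3 : ℕ))), by positivity,
    fun y hy => ?_⟩
  by_cases hyY : Y ≤ y
  · refine le_trans ?_ (hD y hyY hy)
    have := le_max_left D (c' / 2 * Real.log (Real.log (max Y 3 : ℕ)))
    linarith
  · have h5 : c' / 2 * Real.log (Real.log y) ≤ c' / 2 * Real.log (Real.log (max Y 3 : ℕ)) := by
      refine mul_le_mul_of_nonneg_left ?_ (by positivity)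
      have hy3 : (3 : ℝ) ≤ y := by exact_mod_cast hy
      have hly : 1 < Real.log y := by
        rw [Real.lt_log_iff_exp_lt (by linarith)]
        have := Real.exp_one_lt_d9
        linarith
      apply Real.log_le_log (by linarith)
      apply Real.log_le_log (by linarith)
      have : y ≤ max Y 3 := le_trans (by omega) (le_max_left Y 3)
      exact_mod_cast this
    have h6 := le_max_right D (c' / 2 * Real.log (Real.log (max Y 3 : ℕ)))
    have h7 : 0 ≤ ∑ p ∈ (range (y + 1)).filter (fun p => p.Prime ∧ w p), (1 : ℝ) / p :=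
      Finset.sum_nonneg fun p _ => by positivity
    linarith

end Q44.TK
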