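import Pool.Agent.H921R2.TatePole.BaseChange
import Pool.Agent.H484R2.Quad
import Pool.Agent.Q44.TK.Tau

/-!
# The primes modulo which an element of a number field is not a square
-/

set_option autoImplicit false
set_option linter.unusedSectionVars false

open scoped Classical

namespace Q44.TK

open Finset Filter Topology NumberField Polynomial
open Q283.GM (HM)
open Pool.Agent.H921R2.TatePole (W Lam Bdd W_sub_Lam_bdd hc R R_eq_hc R_le hom_finite extend_hom w
  w_nonneg w_summable bddmul_summable sum_R_bdd)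
open Pool.Agent.H484R2 (exists_quad)

section

variable {K : Type} [Field K] [NumberField K]

/-- the homomorphisms modulo which the element is a nonzero square -/
def SH (θ : 𝓞 K) (p : ℕ) : Type := {φ : 𝓞 K →+* ZMod p // IsSquare (φ θ) ∧ φ θ ≠ 0}

/-- the homomorphisms modulo which the element is not a square -/
def TH (θ : 𝓞 K) (p : ℕ) : Type := {φ : 𝓞 K →+* ZMod p // ¬ IsSquare (φ θ)}

/-- a multiple of an algebraic number is integral -/
theorem exists_mul (z : K) : ∃ N : ℤ, N ≠ 0 ∧ ∃ x : 𝓞 K, (x : K) = N * z := by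
  have h1 : IsAlgebraic ℤ z := (IsFractionRing.isAlgebraic_iff ℤ ℚ K).2
    (Algebra.IsAlgebraic.isAlgebraic z)
  obtain ⟨y, hy, hi⟩ := h1.exists_integral_multiple
  refine ⟨y, hy, ⟨y • z, hi⟩, ?_⟩
  show y • z = y * z
  rw [zsmul_eq_mul]

section ext

variable {L : Type} [Field L] [NumberField L] [Algebra K L]

/-- the map from the polynomials -/
noncomputable def ff (v : 𝓞 L) : (𝓞 K)[X] →+* 𝓞 L := eval₂RingHom (algebraMap (𝓞 K) (𝓞 L)) v

theorem ff_C (v : 𝓞 L) (x : 𝓞 K) : ff v (C x) = algebraMap (𝓞 K) (𝓞 L) x := by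
  unfold ff
  rw [coe_eval₂RingHom, eval₂_C]

theorem ff_X (v : 𝓞 L) : ff (K := K) v X = v := by
  unfold ff
  rw [coe_eval₂RingHom, eval₂_X]

theorem ker_le {θ : 𝓞 K} (hθ : ¬ IsSquare (θ : K)) {v : 𝓞 L}
    (hv : v ^ 2 = algebraMap (𝓞 K) (𝓞 L) θ) {p : ℕ} (φ : 𝓞 K →+* ZMod p) {y : ZMod p}
    (hy : y ^ 2 = φ θ) : RingHom.ker (ff (K := K) v) ≤ RingHom.ker (eval₂RingHom φ y) := by
  intro g hg
  rw [RingHom.mem_ker] at hg ⊢
  have hmon : (X ^ 2 - C θ : (𝓞 K)[X]).Monic := by monicity!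
  have hdeg : (X ^ 2 - C θ : (𝓞 K)[X]).natDegree = 2 := by compute_degree!
  have hfq : ff (K := K) v (X ^ 2 - C θ) = 0 := by
    rw [map_sub, map_pow, ff_X, ff_C, hv, sub_self]
  have h1 := modByMonic_add_div g (X ^ 2 - C θ : (𝓞 K)[X])
  have h2 : ff (K := K) v (g %ₘ (X ^ 2 - C θ)) = 0 := by
    rw [← h1, map_add, map_mul, hfq, zero_mul, add_zero] at hg
    exact hg
  have h3 : (g %ₘ (X ^ 2 - C θ)).natDegree ≤ 1 := by
    have := natDegree_modByMonic_lt g hmon (by
      intro h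
      rw [h] at hdeg
      simp at hdeg)
    rw [hdeg] at this
    omega
  obtain ⟨r1, r0, h4⟩ := exists_eq_X_add_C_of_natDegree_le_one h3
  rw [h4, map_add, map_mul, ff_X, ff_C, ff_C] at h2
  have h5 : (algebraMap K L (r1 : K)) * (v : L) + algebraMap K L (r0 : K) = 0 :=
    congrArg (fun t : 𝓞 L => (t : L)) h2
  have hv' : (v : L) ^ 2 = algebraMap K L (θ : K) := congrArg (fun t : 𝓞 L => (t : L)) hv
  have hr1 : r1 = 0 := by
    by_contra hne
    apply hθ
    have hr : (r1 : K) ≠ 0 := fun h => hne (RingOfIntegers.coe_injective (by rw [map_zero]; exact h))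
    refine ⟨(r0 : K) / r1, ?_⟩
    apply (algebraMap K L).injective
    have hrL : algebraMap K L (r1 : K) ≠ 0 := by
      rw [Ne, map_eq_zero]
      exact hr
    rw [map_mul, map_div₀, ← hv']
    have h6 : algebraMap K L (r0 : K) = -(algebraMap K L (r1 : K) * v) := by
      linear_combination h5
    rw [h6]
    field_simp
  have hr0 : r0 = 0 := by
    rw [hr1] at h5
    have h6 : algebraMap K L (r0 : K) = 0 := by
      simpa using h5
    rw [map_eq_zero] at h6
    exact RingOfIntegers.coe_injective (by rw [map_zero]; exact h6)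
  rw [hr1, hr0, map_zero, zero_mul, zero_add] at h4
  rw [← h1, h4, zero_add, map_mul]
  have h7 : (eval₂RingHom φ y) (X ^ 2 - C θ : (𝓞 K)[X]) = 0 := by
    rw [coe_eval₂RingHom, eval₂_sub, eval₂_pow, eval₂_X, eval₂_C, hy, sub_self]
  rw [h7, zero_mul]

end ext

/-- **twice as many homomorphisms of the quadratic extension** -/
theorem two_homs {θ : 𝓞 K} (hθ : ¬ IsSquare (θ : K)) :
    ∃ (L : Type) (_ : Field L) (_ : NumberField L) (N : ℤ), N ≠ 0 ∧
      ∀ p : Nat.Primes, ¬ ((p : ℕ) : ℤ) ∣ N → 2 * Nat.card (SH θ p) ≤ hc (𝓞 L) p := by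
  obtain ⟨L, iF, iN, iA, v, σ, hv, -, hz⟩ := exists_quad K 0 0 θ (by
    rintro ⟨s, hs⟩
    apply hθ
    refine ⟨s / 2, ?_⟩
    push_cast at hs
    linear_combination hs / 4)
  have hv' : v ^ 2 = algebraMap (𝓞 K) (𝓞 L) θ := by
    apply RingOfIntegers.coe_injective
    push_cast at hv
    rw [zero_mul, add_zero, add_zero] at hv
    rw [map_pow]
    exact hv
  have hlat : ∀ e : 𝓞 L, ∃ N : ℤ, N ≠ 0 ∧ ∃ g, ff (K := K) v g = (N : 𝓞 L) * e := by
    intro e
    obtain ⟨α, β, he⟩ := hz (e : L)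
    obtain ⟨N1, h1, x1, hx1⟩ := exists_mul α
    obtain ⟨N2, h2, x2, hx2⟩ := exists_mul β
    refine ⟨N1 * N2, mul_ne_zero h1 h2, C ((N2 : 𝓞 K) * x1) + C ((N1 : 𝓞 K) * x2) * X, ?_⟩
    rw [map_add (ff (K := K) v), ff_C, map_mul (ff (K := K) v), ff_C, ff_X]
    apply RingOfIntegers.coe_injective
    have he' : algebraMap (𝓞 L) L e =
      algebraMap K L α + algebraMap K L β * algebraMap (𝓞 L) L v := he
    rw [map_add (algebraMap (𝓞 L) L), map_mul (algebraMap (𝓞 L) L) (algebraMap (𝓞 K) (𝓞 L) _) v,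
      map_mul (algebraMap (𝓞 L) L) _ e, he']
    have e1 : ∀ x : 𝓞 K, algebraMap (𝓞 L) L (algebraMap (𝓞 K) (𝓞 L) x) =
        algebraMap K L (x : K) := fun x => rfl
    rw [e1, e1]
    have e2 : (((N2 : 𝓞 K) * x1 : 𝓞 K) : K) = N2 * (N1 * α) := by
      rw [← hx1]
      push_cast
      rfl
    have e3 : (((N1 : 𝓞 K) * x2 : 𝓞 K) : K) = N1 * (N2 * β) := by
      rw [← hx2]
      push_cast
      rfl
    rw [e2, e3]
    push_cast
    simp only [map_mul, map_intCast]
    ring
  obtain ⟨s, hs⟩ : ∃ s : Finset (𝓞 L), Submodule.span ℤ (s : Set (𝓞 L)) = ⊤ := Module.Finite.fg_top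
  choose Ne hNe ge hge using hlat
  set N0 : ℤ := ∏ e ∈ s, Ne e with hN0
  have hN0' : N0 ≠ 0 := Finset.prod_ne_zero_iff.2 fun e _ => hNe e
  have hN : ∀ b : 𝓞 L, ∃ a, ff (K := K) v a = (N0 : 𝓞 L) * b := by
    intro b
    have hb : b ∈ Submodule.span ℤ (s : Set (𝓞 L)) := by rw [hs]; trivial
    induction hb using Submodule.span_induction with
    | mem x hx =>
      obtain ⟨c, hc⟩ := Finset.dvd_prod_of_mem Ne (Finset.mem_coe.1 hx)
      refine ⟨(c : (𝓞 K)[X]) * ge x, ?_⟩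
      rw [map_mul, map_intCast, hge, hN0, hc]
      push_cast
      ring
    | zero => exact ⟨0, by rw [map_zero, mul_zero]⟩
    | add x y _ _ hx hy =>
      obtain ⟨a, ha⟩ := hx
      obtain ⟨b, hb⟩ := hy
      exact ⟨a + b, by rw [map_add, ha, hb, mul_add]⟩
    | smul n x _ hx =>
      obtain ⟨a, ha⟩ := hx
      refine ⟨(n : (𝓞 K)[X]) * a, ?_⟩
      rw [map_mul, map_intCast, ha, zsmul_eq_mul]
      ring
  refine ⟨L, iF, iN, 2 * N0, mul_ne_zero two_ne_zero hN0', fun p hp => ?_⟩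
  have hpf : Fact (p : ℕ).Prime := ⟨p.prop⟩
  have hpN : ¬ ((p : ℕ) : ℤ) ∣ N0 := fun h => hp (h.mul_left 2)
  have hp2 : (2 : ZMod p) ≠ 0 := by
    intro h
    apply hp
    have h1 : ((2 : ℕ) : ZMod p) = 0 := by exact_mod_cast h
    rw [ZMod.natCast_eq_zero_iff] at h1
    have h2 : ((p : ℕ) : ℤ) ∣ 2 := by exact_mod_cast h1
    exact h2.mul_right N0
  have hfin := hom_finite (K := L) p
  have hfinK := hom_finite (K := K) p
  have ht : ∀ φ : SH θ p, ∃ t : ZMod p, t ^ 2 = φ.1 θ := by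
    intro φ
    obtain ⟨t, ht⟩ := φ.2.1
    exact ⟨t, by rw [ht, sq]⟩
  choose t ht using ht
  have ht0 : ∀ φ : SH θ p, t φ ≠ 0 := by
    intro φ h
    apply φ.2.2
    rw [← ht φ, h]
    ring
  let y : SH θ p × Bool → ZMod p := fun q => if q.2 then t q.1 else -t q.1
  have hy : ∀ q : SH θ p × Bool, y q ^ 2 = q.1.1 θ := by
    rintro ⟨φ, b⟩
    rw [← ht φ]
    cases b
    · show (-t φ) ^ 2 = t φ ^ 2
      ring
    · rfl
  have hext : ∀ q : SH θ p × Bool, ∃ ψ : 𝓞 L →+* ZMod p, ψ.comp (ff (K := K) v) =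
      eval₂RingHom q.1.1 (y q) := fun q =>
    extend_hom (ff (K := K) v) hN hpN (eval₂RingHom q.1.1 (y q)) (ker_le hθ hv' q.1.1 (hy q))
  choose ψ hψ using hext
  have hinj : Function.Injective ψ := by
    intro q q' h
    have h1 : eval₂RingHom q.1.1 (y q) = eval₂RingHom q'.1.1 (y q') := by
      rw [← hψ q, ← hψ q', h]
    have h2 : q.1.1 = q'.1.1 := by
      ext x
      have h3 := RingHom.congr_fun h1 (C x)
      rw [coe_eval₂RingHom, coe_eval₂RingHom, eval₂_C, eval₂_C] at h3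
      exact h3
    have h4 : q.1 = q'.1 := Subtype.ext h2
    have h5 : y q = y q' := by
      have h3 := RingHom.congr_fun h1 X
      rw [coe_eval₂RingHom, coe_eval₂RingHom, eval₂_X, eval₂_X] at h3
      exact h3
    have h6 : ∀ (φ : SH θ p) (b b' : Bool), y (φ, b) = y (φ, b') → b = b' := by
      intro φ b b' hb
      have h7 : t φ ≠ -t φ := by
        intro h
        have h8 : (2 : ZMod p) * t φ = 0 := by linear_combination h
        rcases mul_eq_zero.1 h8 with h9 | h9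
        · exact hp2 h9
        · exact ht0 φ h9
      cases b <;> cases b'
      · rfl
      · exact absurd (show -t φ = t φ from hb).symm h7
      · exact absurd (show t φ = -t φ from hb) h7
      · rfl
    obtain ⟨φ, b⟩ := q
    obtain ⟨φ', b'⟩ := q'
    have h4' : φ = φ' := h4
    subst h4'
    rw [h6 φ b b' h5]
  have hfS : Finite (SH θ p) := Subtype.finite
  have hcard := Nat.card_le_card_of_injective ψ hinj
  rw [Nat.card_prod, Nat.card_eq_fintype_card (α := Bool), Fintype.card_bool] at hcard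
  unfold hc
  rw [mul_comm]
  exact hcard

end

end Q44.TK
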