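import Pool.Agent.Q44.TK.Sepa

/-!
# The unramified quadratic extension and the separation of the twists by different primes
-/

set_option autoImplicit false
set_option linter.unusedSectionVars false

open scoped Classical

namespace Q44.TK

open Finset NumberField Polynomial
open Q283.GM (HM)
open Pool.Agent.Y703.CQ (nr)
open Q44.TI

section unram

variable {q : ℕ} [hq : Fact q.Prime]

theorem norm_int_one {n : ℤ} (hn : ¬ (q : ℤ) ∣ n) : ‖((n : ℤ) : ℚ_[q])‖ = 1 := by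
  have h1 : ‖((n : ℤ) : ℚ_[q])‖ ≤ 1 := Padic.norm_int_le_one n
  rcases lt_or_eq_of_le h1 with h2 | h2
  · exact absurd (Padic.norm_intCast_lt_one_iff.1 h2) hn
  · exact h2

/-- the values of the norm form of the unramified quadratic extension -/
theorem norm_form {η : ℤ} (hη : ¬ IsSquare ((η : ℤ) : ZMod q)) (x y : ℚ_[q]) :
    ‖x ^ 2 - (η : ℚ_[q]) * y ^ 2‖ = (max ‖x‖ ‖y‖) ^ 2 := by
  have hη1 : ‖((η : ℤ) : ℚ_[q])‖ = 1 := norm_int_one fun hd => hη (by
    rw [(ZMod.intCast_zmod_eq_zero_iff_dvd η q).2 hd]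
    exact ⟨0, by ring⟩)
  have e1 : ‖x ^ 2‖ = ‖x‖ ^ 2 := norm_pow x 2
  have e2 : ‖(η : ℚ_[q]) * y ^ 2‖ = ‖y‖ ^ 2 := by rw [norm_mul, hη1, one_mul, norm_pow]
  by_cases h : ‖x‖ = ‖y‖
  · by_cases hy : y = 0
    · subst hy
      rw [norm_zero, norm_eq_zero] at h
      subst h
      simp
    · rw [h, max_self]
      set w : ℚ_[q] := x / y with hw
      have hw1 : ‖w‖ = 1 := by
        rw [hw, norm_div, h, div_self (norm_ne_zero_iff.2 hy)]
      have e3 : x ^ 2 - (η : ℚ_[q]) * y ^ 2 = (w ^ 2 - η) * y ^ 2 := by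
        rw [hw]
        field_simp
      rw [e3, norm_mul, norm_pow]
      let z : ℤ_[q] := ⟨w, hw1.le⟩
      have e4 : w ^ 2 - (η : ℚ_[q]) = ((z ^ 2 - (η : ℤ_[q]) : ℤ_[q]) : ℚ_[q]) := by
        push_cast
        rfl
      have h5 : ‖w ^ 2 - (η : ℚ_[q])‖ = 1 := by
        rw [e4, ← PadicInt.norm_def]
        rcases lt_or_eq_of_le (PadicInt.norm_le_one (z ^ 2 - (η : ℤ_[q]))) with h6 | h6
        · exfalso
          apply hη
          have h7 : PadicInt.toZMod (z ^ 2 - (η : ℤ_[q])) = 0 := by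
            rw [← RingHom.mem_ker, PadicInt.ker_toZMod, PadicInt.maximalIdeal_eq_span_p,
              Ideal.mem_span_singleton]
            exact (PadicInt.norm_lt_one_iff_dvd _).1 h6
          rw [map_sub, map_pow, map_intCast, sub_eq_zero] at h7
          exact ⟨PadicInt.toZMod z, by rw [← h7, sq]⟩
        · exact h6
      rw [h5, one_mul]
  · have h1 : ‖x ^ 2‖ ≠ ‖-((η : ℚ_[q]) * y ^ 2)‖ := by
      rw [norm_neg, e1, e2]
      intro h2
      apply h
      exact (pow_left_inj₀ (norm_nonneg _) (norm_nonneg _) two_ne_zero).1 h2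
    rw [sub_eq_add_neg, Padic.add_eq_max_of_ne h1, norm_neg, e1, e2]
    rcases le_total ‖x‖ ‖y‖ with h3 | h3
    · rw [max_eq_right h3, max_eq_right (pow_le_pow_left₀ (norm_nonneg _) h3 2)]
    · rw [max_eq_left h3, max_eq_left (pow_le_pow_left₀ (norm_nonneg _) h3 2)]

/-- the square of the norm of the norm is a fourth power of a power of `q` -/
theorem norm_form_zpow {η : ℤ} (hη : ¬ IsSquare ((η : ℤ) : ZMod q)) {x y : ℚ_[q]}
    (h : x ≠ 0 ∨ y ≠ 0) : ∃ k : ℤ, ‖x ^ 2 - (η : ℚ_[q]) * y ^ 2‖ = ((q : ℝ) ^ k) ^ 2 := by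
  rw [norm_form hη]
  have key : ∀ t : ℚ_[q], t ≠ 0 → ∃ k : ℤ, ‖t‖ = (q : ℝ) ^ k := by
    intro t ht
    exact ⟨-t.valuation, Padic.norm_eq_zpow_neg_valuation ht⟩
  rcases le_total ‖x‖ ‖y‖ with h3 | h3
  · rw [max_eq_right h3]
    have hy : y ≠ 0 := by
      rintro rfl
      rw [norm_zero] at h3
      have := norm_le_zero_iff.1 h3
      rcases h with h | h
      · exact h this
      · exact h rfl
    obtain ⟨k, hk⟩ := key y hy
    exact ⟨k, by rw [hk]⟩
  · rw [max_eq_left h3]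
    have hx : x ≠ 0 := by
      rintro rfl
      rw [norm_zero] at h3
      have := norm_le_zero_iff.1 h3
      rcases h with h | h
      · exact h rfl
      · exact h this
    obtain ⟨k, hk⟩ := key x hx
    exact ⟨k, by rw [hk]⟩

/-- the unramified quadratic extension -/
abbrev FF (q : ℕ) [Fact q.Prime] (η : ℤ) : Type := QuadraticAlgebra ℚ_[q] (η : ℚ_[q]) 0

theorem fact_FF {η : ℤ} (hη : ¬ IsSquare ((η : ℤ) : ZMod q)) :
    Fact (∀ r : ℚ_[q], r ^ 2 ≠ (η : ℚ_[q]) + 0 * r) := by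
  refine ⟨fun r hr => ?_⟩
  have h1 := norm_form hη r 1
  have h2 : r ^ 2 - (η : ℚ_[q]) * 1 ^ 2 = 0 := by rw [hr]; ring
  rw [h2, norm_zero, norm_one] at h1
  have h3 : (0 : ℝ) < max ‖r‖ 1 := lt_max_of_lt_right one_pos
  have h4 := pow_pos h3 2
  rw [← h1] at h4
  exact lt_irrefl _ h4

/-- the integers prime to `q` are squares in the unramified quadratic extension -/
theorem sq_FF (h2 : q ≠ 2) {η : ℤ} (hη : ¬ IsSquare ((η : ℤ) : ZMod q)) {n : ℤ}
    (hn : ¬ (q : ℤ) ∣ n) : IsSquare ((n : ℤ) : FF q η) := by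
  have hη0 : ¬ (q : ℤ) ∣ η := fun hd => hη (by
    rw [(ZMod.intCast_zmod_eq_zero_iff_dvd η q).2 hd]
    exact ⟨0, by ring⟩)
  by_cases h : IsSquare ((n : ℤ) : ZMod q)
  · obtain ⟨s, hs⟩ := padic_sq h2 hn h
    refine ⟨algebraMap ℚ_[q] (FF q η) s, ?_⟩
    rw [← map_mul, ← hs, map_intCast]
  · have h3 : IsSquare ((n * η : ℤ) : ZMod q) := by
      have hn0 : ((n : ℤ) : ZMod q) ≠ 0 := nz_of hn
      have he0 : ((η : ℤ) : ZMod q) ≠ 0 := nz_of hη0
      rw [← quadraticChar_one_iff_isSquare (nz_of (by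
        intro hd
        rcases (Nat.prime_iff_prime_int.1 hq.out).dvd_or_dvd hd with h4 | h4
        · exact hn h4
        · exact hη0 h4)), Int.cast_mul, map_mul, quadraticChar_neg_one_iff_not_isSquare.2 h,
        quadraticChar_neg_one_iff_not_isSquare.2 hη]
      norm_num
    obtain ⟨s, hs⟩ := padic_sq h2 (by
        intro hd
        rcases (Nat.prime_iff_prime_int.1 hq.out).dvd_or_dvd hd with h4 | h4
        · exact hn h4
        · exact hη0 h4) h3
    have he : ((η : ℤ) : ℚ_[q]) ≠ 0 := by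
      intro h0
      apply hη0
      have : η = 0 := by exact_mod_cast h0
      rw [this]
      exact dvd_zero _
    refine ⟨⟨0, s / η⟩, ?_⟩
    have e : ((n : ℤ) : FF q η) = ⟨(n : ℚ_[q]), 0⟩ := by
      ext
      · simp
      · simp
    rw [e]
    ext
    · simp only [QuadraticAlgebra.re_mul]
      push_cast at hs
      field_simp
      linear_combination hs
    · simp only [QuadraticAlgebra.im_mul]
      ring

/-- the norm of an integral element -/
theorem norm_int_le {η : ℤ} {t : FF q η} (ht : IsIntegral ℤ t) :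
    ‖QuadraticAlgebra.norm t‖ ≤ 1 := by
  have h1 : IsIntegral ℤ (star t) := ht.map (starRingEnd (FF q η)).toIntAlgHom
  have h2 : IsIntegral ℤ (algebraMap ℚ_[q] (FF q η) (QuadraticAlgebra.norm t)) := by
    rw [QuadraticAlgebra.algebraMap_norm_eq_mul_star]
    exact ht.mul h1
  have h3 : IsIntegral ℤ (QuadraticAlgebra.norm t) := by
    have hinj : Function.Injective (algebraMap ℚ_[q] (FF q η)) :=
      QuadraticAlgebra.algebraMap_injective
    exact (isIntegral_algHom_iff ((algebraMap ℚ_[q] (FF q η)).toIntAlgHom) hinj).1 h2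
  have h4 : IsIntegral ℤ_[q] (QuadraticAlgebra.norm t) := h3.tower_top
  obtain ⟨y, hy⟩ := IsIntegrallyClosed.isIntegral_iff.1 h4
  rw [← hy]
  exact PadicInt.norm_le_one y

theorem norm_one_of {η : ℤ} {A B : ℤ} (h2 : q ≠ 2) (hB : ¬ (q : ℤ) ∣ B) {t : FF q η}
    (ht : IsIntegral ℤ t)
    (h : (t + (A : FF q η)) ^ 2 = (A : FF q η) ^ 2 - 4 * (B : FF q η)) :
    ‖QuadraticAlgebra.norm t‖ = 1 := by
  have e1 : t * (t + 2 * (A : FF q η)) = ((-4 * B : ℤ) : FF q η) := by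
    push_cast
    linear_combination h
  have h3 : IsIntegral ℤ (t + 2 * (A : FF q η)) := by
    refine ht.add ?_
    have : (2 : FF q η) * (A : FF q η) = algebraMap ℤ (FF q η) (2 * A) := by simp
    rw [this]
    exact isIntegral_algebraMap
  have h4 := congrArg (fun x => ‖QuadraticAlgebra.norm x‖) e1
  simp only [map_mul, norm_mul, QuadraticAlgebra.norm_intCast, norm_pow] at h4
  have h5 : ‖((-4 * B : ℤ) : ℚ_[q])‖ = 1 := by
    apply norm_int_one
    intro hd
    rcases (Nat.prime_iff_prime_int.1 hq.out).dvd_or_dvd hd with h6 | h6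
    · have h7 : (q : ℤ) ∣ 2 ^ 2 := by
        have : (2 : ℤ) ^ 2 = - (-4) := by norm_num
        rw [this]
        exact h6.neg_right
      have h8 := (Nat.prime_iff_prime_int.1 hq.out).dvd_of_dvd_pow h7
      have h9 : q ∣ 2 := by exact_mod_cast h8
      exact h2 ((Nat.prime_dvd_prime_iff_eq hq.out Nat.prime_two).1 h9)
    · exact hB h6
  rw [h5, one_pow] at h4
  have h6 := norm_int_le ht
  have h7 := norm_int_le h3
  have h8 : (0 : ℝ) ≤ ‖QuadraticAlgebra.norm t‖ := norm_nonneg _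
  nlinarith

variable {K : Type} [Field K] [NumberField K]

/-- the ramification of a square root of a number which is divisible by `q` exactly once -/
theorem not_sq_of {η : ℤ} (hη : ¬ IsSquare ((η : ℤ) : ZMod q)) (h2 : q ≠ 2)
    (ψ : K →+* FF q η) {A B A' B' : ℤ} (hB : ¬ (q : ℤ) ∣ B) (hB' : ¬ (q : ℤ) ∣ B') {t t' : 𝓞 K}
    (ht : (t + (A : 𝓞 K)) ^ 2 = (A : 𝓞 K) ^ 2 - 4 * (B : 𝓞 K))
    (ht' : (t' + (A' : 𝓞 K)) ^ 2 = (A' : 𝓞 K) ^ 2 - 4 * (B' : 𝓞 K)) {m m' : ℤ}
    (hm : Squarefree m) (hqm : (q : ℤ) ∣ m) (hqm' : ¬ (q : ℤ) ∣ m') :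
    ¬ IsSquare ((t * t' * ((m : ℤ) : 𝓞 K) * ((m' : ℤ) : 𝓞 K) : 𝓞 K) : K) := by
  have hF := fact_FF hη
  rintro ⟨s, hs⟩
  have h1 := congrArg (fun x => ‖QuadraticAlgebra.norm (ψ x)‖) hs
  have i1 : ∀ x : 𝓞 K, IsIntegral ℤ (ψ (x : K)) := fun x => x.2.map ψ.toIntAlgHom
  have e1 : ∀ {A B : ℤ} {t : 𝓞 K}, (t + (A : 𝓞 K)) ^ 2 = (A : 𝓞 K) ^ 2 - 4 * (B : 𝓞 K) →
      ¬ (q : ℤ) ∣ B → ‖QuadraticAlgebra.norm (ψ (t : K))‖ = 1 := by
    intro A B t ht hB
    refine norm_one_of h2 hB (i1 t) (A := A) ?_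
    have h3 := congrArg (fun x : 𝓞 K => ψ (x : K)) ht
    simpa only [map_pow, map_add, map_sub, map_mul, map_intCast, map_ofNat] using h3
  have e2 : ‖QuadraticAlgebra.norm (ψ (t : K))‖ = 1 := e1 ht hB
  have e3 : ‖QuadraticAlgebra.norm (ψ (t' : K))‖ = 1 := e1 ht' hB'
  have e4 : ‖((m' : ℤ) : ℚ_[q])‖ = 1 := norm_int_one hqm'
  have e5 : ‖((m : ℤ) : ℚ_[q])‖ = (q : ℝ)⁻¹ := by
    obtain ⟨n, rfl⟩ := hqm
    have hn : ¬ (q : ℤ) ∣ n := by
      rintro ⟨k, rfl⟩
      have h4 := hm (q : ℤ) ⟨k, by ring⟩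
      exact (Nat.prime_iff_prime_int.1 hq.out).not_isUnit h4
    rw [Int.cast_mul, norm_mul, norm_int_one hn, mul_one, Int.cast_natCast, Padic.norm_p]
  simp only [map_mul, map_intCast, norm_mul, QuadraticAlgebra.norm_intCast, norm_pow, e2, e3, e4,
    e5, one_mul, one_pow, mul_one] at h1
  set z := ψ s with hz
  have hq1 : (1 : ℝ) < q := by exact_mod_cast hq.out.one_lt
  have hq0 : (0 : ℝ) < q := by linarith
  have hz0 : z ≠ 0 := by
    rintro h0
    rw [h0, QuadraticAlgebra.norm_zero, norm_zero, mul_zero] at h1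
    have : (0 : ℝ) < ((q : ℝ)⁻¹) ^ 2 := by positivity
    linarith
  have hz1 : z.re ≠ 0 ∨ z.im ≠ 0 := by
    by_contra h0
    rw [not_or, not_not, not_not] at h0
    apply hz0
    ext
    · exact h0.1
    · exact h0.2
  obtain ⟨k, hk⟩ := norm_form_zpow hη hz1
  have e6 : QuadraticAlgebra.norm z = z.re ^ 2 - (η : ℚ_[q]) * z.im ^ 2 := by
    rw [QuadraticAlgebra.norm_def]
    ring
  rw [e6, hk] at h1
  have e7 : ((q : ℝ)⁻¹) ^ 2 = (q : ℝ) ^ (-2 : ℤ) := by
    rw [zpow_neg, inv_pow]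
    norm_cast
  have e8 : ((q : ℝ) ^ k) ^ 2 * ((q : ℝ) ^ k) ^ 2 = (q : ℝ) ^ (4 * k) := by
    rw [mul_comm (4 : ℤ) k, zpow_mul]
    have : ((q : ℝ) ^ k) ^ (4 : ℤ) = ((q : ℝ) ^ k) ^ (4 : ℕ) := by norm_cast
    rw [this]
    ring
  rw [e7, e8] at h1
  have h5 := zpow_right_injective₀ hq0 hq1.ne' h1
  have h6 : (-2 : ℤ) = 4 * k := h5
  omega

end unram

/-- the embedding of the multiquadratic field into the unramified quadratic extension -/
theorem exists_psi {q : ℕ} [hq : Fact q.Prime] (h2 : q ≠ 2) {η : ℤ}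
    (hη : ¬ IsSquare ((η : ℤ) : ZMod q)) {N : ℤ} (hN : ¬ (q : ℤ) ∣ N) :
    Nonempty ((F1 N).SplittingField →+* FF q η) := by
  have hF := fact_FF hη
  have hc : CharZero (FF q η) := inferInstance
  have g1 : IsSquare (-1 : FF q η) := by
    have := sq_FF h2 hη (n := -1) (by
      intro hd
      have := Int.natCast_dvd.1 hd
      exact hq.out.one_lt.ne' (Nat.dvd_one.1 (by simpa using this)))
    push_cast at this
    exact this
  have g2 : IsSquare (2 : FF q η) := by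
    have := sq_FF h2 hη (n := 2) (by
      intro hd
      have h5 : q ∣ 2 := by exact_mod_cast hd
      exact h2 ((Nat.prime_dvd_prime_iff_eq hq.out Nat.prime_two).1 h5))
    push_cast at this
    exact this
  have g3 : ∀ r : ℕ, r.Prime → (r : ℤ) ∣ N → IsSquare ((r : ℕ) : FF q η) := by
    intro r hr hd
    have := sq_FF h2 hη (n := (r : ℤ)) (by
      intro hd'
      have h5 : q ∣ r := Int.natCast_dvd_natCast.1 hd'
      rw [← (Nat.prime_dvd_prime_iff_eq hq.out hr).1 h5] at hd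
      exact hN hd)
    rwa [Int.cast_natCast] at this
  have hsp' := F1_splits (F := FF q η) (N := N) g1 g2 g3
  exact ⟨(SplittingField.lift (F1 N) hsp').toRingHom⟩

end Q44.TK
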