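import Pool.Agent.Q44.TK.Cheb
import Pool.Agent.Q44.TK.LC

/-!
# The separation of two curves
-/

set_option autoImplicit false
set_option linter.unusedSectionVars false

open scoped Classical

namespace Q44.TK

open Finset NumberField Polynomial
open Q283.GM (HM)
open Pool.Agent.Y703.CQ (nr)
open Q44.TI

/-! ### the symbols modulo an active prime -/

section sym

variable {A B : ℤ} {p : ℕ}

theorem half_root (h : Act A B p) (hB : B ≠ 0) {t : ZMod p}
    (ht : (t + (A : ZMod p)) ^ 2 = (A : ZMod p) ^ 2 - 4 * (B : ZMod p)) :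
    ch t = fd A B p ∧ t ≠ 0 := by
  have : Fact p.Prime := ⟨h.1⟩
  have h20 := h.two0
  have h4 : (4 : ZMod p) ≠ 0 := by
    have : (4 : ZMod p) = 2 * 2 := by norm_num
    rw [this]
    exact mul_ne_zero h20 h20
  have hr : (t / 2) ^ 2 + (A : ZMod p) * (t / 2) + (B : ZMod p) = 0 := by
    apply mul_left_cancel₀ h4
    field_simp
    linear_combination ht
  have ht0 : t ≠ 0 := by
    rintro rfl
    apply h.B0
    apply mul_left_cancel₀ h4
    linear_combination ht
  have h5 := root_sq h hB hr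
  have h6 : IsSquare t ↔ IsSquare (t / 2) := by
    obtain ⟨s, hs⟩ := h.two
    have hs0 : s ≠ 0 := by
      rintro rfl
      exact h20 (by rw [hs]; ring)
    constructor
    · rintro ⟨x, hx⟩
      exact ⟨x / s, by rw [hx, hs]; field_simp⟩
    · rintro ⟨x, hx⟩
      refine ⟨x * s, ?_⟩
      have : t = t / 2 * 2 := by field_simp
      rw [this, hx]
      linear_combination x * x * hs
  refine ⟨?_, ht0⟩
  unfold ch fd
  by_cases h7 : IsSquare t
  · rw [if_pos h7, if_pos (h5.1 (h6.1 h7))]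
  · rw [if_neg h7, if_neg fun h8 => h7 (h6.2 (h5.2 h8))]

theorem ch_neg (h : Act A B p) {x : ZMod p} (hx : x ≠ 0) : ch (-x) = ch x := by
  have : Fact p.Prime := ⟨h.1⟩
  rw [neg_eq_neg_one_mul, ch_sq h.neg_one (neg_ne_zero.2 one_ne_zero) hx]

theorem ch_int (h : Act A B p) {m : ℤ} (hm : Squarefree m) (hp : ¬ (p : ℤ) ∣ m) :
    ch ((m : ℤ) : ZMod p) = ∑ u ∈ pr m, nr p u := by
  have : Fact p.Prime := ⟨h.1⟩
  have hJ : ∀ l ∈ pr m, l.Prime := fun l hl => Nat.prime_of_mem_primeFactors hl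
  have hpJ : p ∉ pr m := fun h' => hp (Int.natCast_dvd.2 (Nat.dvd_of_mem_primeFactors h'))
  have h1 := ch_pd h.1 hJ hpJ
  have h2 : ((pd (pr m) : ℤ) : ZMod p) ≠ 0 := nz_of (not_dvd_pd h.1 hJ hpJ)
  rw [← h1]
  have e : m = pd (pr m) ∨ m = -pd (pr m) := by
    rw [pd_pr hm]
    exact Int.natAbs_eq m
  rcases e with e | e
  · have e' : ((m : ℤ) : ZMod p) = ((pd (pr m) : ℤ) : ZMod p) := congrArg (fun t : ℤ => (t : ZMod p)) e
    rw [e']
  · have e' : ((m : ℤ) : ZMod p) = -((pd (pr m) : ℤ) : ZMod p) :=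
      (congrArg (fun t : ℤ => (t : ZMod p)) e).trans (Int.cast_neg _)
    rw [e', ch_neg h h2]

/-- the quartic of the twist -/
theorem fd_twist (h : Act A B p) (hB : B ≠ 0) (hC : A ^ 2 - 4 * B ≠ 0) {m : ℤ}
    (hp : ¬ (p : ℤ) ∣ m) :
    fd (A * m) (B * m ^ 2) p = fd A B p + ch ((m : ℤ) : ZMod p) := by
  have : Fact p.Prime := ⟨h.1⟩
  have h20 := h.two0
  have hm0 : ((m : ℤ) : ZMod p) ≠ 0 := nz_of hp
  obtain ⟨s, hs⟩ := h.C_sq hC
  set r : ZMod p := (s - A) / 2 with hr'
  have h4 : (4 : ZMod p) ≠ 0 := by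
    have : (4 : ZMod p) = 2 * 2 := by norm_num
    rw [this]
    exact mul_ne_zero h20 h20
  push_cast at hs
  have hr : r ^ 2 + (A : ZMod p) * r + (B : ZMod p) = 0 := by
    apply mul_left_cancel₀ h4
    rw [hr']
    field_simp
    linear_combination -hs
  have hr0 : r ≠ 0 := by
    rintro h0
    apply h.B0
    rw [h0] at hr
    linear_combination hr
  have h5 := root_sq h hB hr
  have h6 : ch r = fd A B p := by
    unfold ch fd
    by_cases h7 : IsSquare r
    · rw [if_pos h7, if_pos (h5.1 h7)]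
    · rw [if_neg h7, if_neg fun h8 => h7 (h5.2 h8)]
  rw [← h6, ← ch_mul hr0 hm0]
  -- the root of the twisted quartic
  have h7 : IsSquare (r * m) ↔ ∃ y : ZMod p, y ^ 4 + ((A * m : ℤ) : ZMod p) * y ^ 2 +
      ((B * m ^ 2 : ℤ) : ZMod p) = 0 := by
    push_cast
    constructor
    · rintro ⟨y, hy⟩
      refine ⟨y, ?_⟩
      have e : y ^ 2 = r * m := by rw [hy, sq]
      have e2 : y ^ 4 = (r * m) ^ 2 := by rw [← e]; ring
      rw [e, e2]
      linear_combination (m : ZMod p) ^ 2 * hr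
    · rintro ⟨y, hy⟩
      have h1 : (y ^ 2 - r * m) * (y ^ 2 + r * m + A * m) = 0 := by
        linear_combination hy - (m : ZMod p) ^ 2 * hr
      rcases mul_eq_zero.1 h1 with h2 | h2
      · exact ⟨y, by linear_combination -h2⟩
      · obtain ⟨b, hb⟩ := h.B_sq hB
        have hB0 := h.B0
        have e : r * m * y ^ 2 = B * m ^ 2 := by linear_combination r * m * h2 - (m : ZMod p) ^ 2 * hr
        have hy0 : y ≠ 0 := by
          rintro rfl
          have : (B : ZMod p) * m ^ 2 = 0 := by rw [← e]; ring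
          rcases mul_eq_zero.1 this with h8 | h8
          · exact hB0 h8
          · exact hm0 (pow_eq_zero_iff two_ne_zero |>.1 h8)
        refine ⟨b * m / y, ?_⟩
        rw [div_mul_div_comm, eq_div_iff (mul_ne_zero hy0 hy0)]
        linear_combination e + (m : ZMod p) ^ 2 * hb
  unfold ch fd
  by_cases h8 : IsSquare (r * m)
  · rw [if_pos h8, if_pos (h7.1 h8)]
  · rw [if_neg h8, if_neg fun h9 => h8 (h7.2 h9)]

end sym

/-! ### the homomorphisms of the ring of integers -/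

section ring

variable {K : Type} [Field K] [NumberField K] {A B A' B' : ℤ} {p : ℕ}

/-- the value of the symbol of the image of `t t' m m'` -/
theorem ch_image (h : Act A B p) (h' : Act A' B' p) (hB : B ≠ 0) (hB' : B' ≠ 0) {t t' : 𝓞 K}
    (ht : (t + (A : 𝓞 K)) ^ 2 = (A : 𝓞 K) ^ 2 - 4 * (B : 𝓞 K))
    (ht' : (t' + (A' : 𝓞 K)) ^ 2 = (A' : 𝓞 K) ^ 2 - 4 * (B' : 𝓞 K)) {m m' : ℤ}
    (hm : Squarefree m) (hm' : Squarefree m') (hpm : ¬ (p : ℤ) ∣ m) (hpm' : ¬ (p : ℤ) ∣ m')
    (φ : 𝓞 K →+* ZMod p) :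
    ch (φ (t * t' * ((m : ℤ) : 𝓞 K) * ((m' : ℤ) : 𝓞 K))) =
      ∑ u ∈ symmDiff (pr m) (pr m'), nr p u + fd A B p + fd A' B' p := by
  have : Fact p.Prime := ⟨h.1⟩
  obtain ⟨e1, n1⟩ := half_root h hB (t := φ t) (by
    have := congrArg φ ht
    rwa [map_pow, map_add, map_intCast, map_sub, map_pow, map_intCast, map_mul, map_intCast,
      map_ofNat] at this)
  obtain ⟨e2, n2⟩ := half_root h' hB' (t := φ t') (by
    have := congrArg φ ht'
    rwa [map_pow, map_add, map_intCast, map_sub, map_pow, map_intCast, map_mul, map_intCast,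
      map_ofNat] at this)
  have e3 := ch_int h hm hpm
  have e4 := ch_int h hm' hpm'
  have n3 := nz_of hpm
  have n4 := nz_of hpm'
  rw [map_mul, map_mul, map_mul, map_intCast, map_intCast,
    ch_mul (mul_ne_zero (mul_ne_zero n1 n2) n3) n4, ch_mul (mul_ne_zero n1 n2) n3, ch_mul n1 n2,
    e1, e2, e3, e4, Q44.TJ.sum_symm (fun x : ZMod 2 => CharTwo.add_self_eq_zero x)]
  ring

end ring

/-- the existence of a homomorphism onto the field with `p` elements, from an embedding into the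
`p`-adic numbers -/
theorem exists_hom {K : Type} [Field K] [NumberField K] (p : ℕ) [hp : Fact p.Prime]
    (ι : K →+* ℚ_[p]) : Nonempty (𝓞 K →+* ZMod p) := by
  have hint : ∀ x : 𝓞 K, ∃ y : ℤ_[p], (y : ℚ_[p]) = ι (algebraMap (𝓞 K) K x) := by
    intro x
    have h1 : IsIntegral ℤ (ι (algebraMap (𝓞 K) K x)) := x.2.map ι.toIntAlgHom
    have h2 : IsIntegral ℤ_[p] (ι (algebraMap (𝓞 K) K x)) := h1.tower_top
    obtain ⟨y, hy⟩ := IsIntegrallyClosed.isIntegral_iff.1 h2
    exact ⟨y, hy⟩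
  choose g hg using hint
  have hinj : Function.Injective (fun y : ℤ_[p] => (y : ℚ_[p])) := Subtype.val_injective
  refine ⟨(PadicInt.toZMod (p := p)).comp ⟨⟨⟨g, ?_⟩, ?_⟩, ?_, ?_⟩⟩
  · apply hinj
    show (g 1 : ℚ_[p]) = ((1 : ℤ_[p]) : ℚ_[p])
    rw [hg, map_one (algebraMap (𝓞 K) K), map_one ι]
    rfl
  · intro x y
    apply hinj
    show (g (x * y) : ℚ_[p]) = ((g x * g y : ℤ_[p]) : ℚ_[p])
    rw [hg, PadicInt.coe_mul, hg, hg, map_mul (algebraMap (𝓞 K) K), map_mul ι]
  · apply hinj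
    show (g 0 : ℚ_[p]) = ((0 : ℤ_[p]) : ℚ_[p])
    rw [hg, map_zero (algebraMap (𝓞 K) K), map_zero ι]
    rfl
  · intro x y
    apply hinj
    show (g (x + y) : ℚ_[p]) = ((g x + g y : ℤ_[p]) : ℚ_[p])
    rw [hg, PadicInt.coe_add, hg, hg, map_add (algebraMap (𝓞 K) K), map_add ι]

/-! ### the multiquadratic field -/

/-- the polynomial whose splitting field contains the square roots -/
noncomputable def F1 (N : ℤ) : ℚ[X] :=
  (X ^ 2 - C (-1)) * (X ^ 2 - C 2) * ∏ l ∈ N.natAbs.primeFactors, (X ^ 2 - C (l : ℚ))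

/-- a number whose prime factors are squares is a square -/
theorem sq_of_primes {F : Type} [Field F] {N : ℤ} (h1 : IsSquare (-1 : F)) (hN : ∀ l : ℕ, l.Prime →
    (l : ℤ) ∣ N → IsSquare ((l : ℕ) : F)) {n : ℤ} (hn : n ≠ 0) (hd : n ∣ N) :
    IsSquare ((n : ℤ) : F) := by
  have key : ∀ n : ℕ, n ≠ 0 → (n : ℤ) ∣ N → IsSquare ((n : ℕ) : F) := by
    intro n
    induction n using Nat.strong_induction_on with
    | _ n ih =>
      intro hn hd
      by_cases h2 : n = 1
      · subst h2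
        rw [Nat.cast_one]
        exact IsSquare.one
      · obtain ⟨l, hlp, m, rfl⟩ := Nat.exists_prime_and_dvd h2
        have hm : m ≠ 0 := right_ne_zero_of_mul hn
        have hlt : m < l * m := by
          have := hlp.two_le
          have := Nat.pos_of_ne_zero hm
          nlinarith
        rw [Nat.cast_mul]
        refine (hN l hlp ((Int.natCast_dvd_natCast.2 (Dvd.intro _ rfl)).trans hd)).mul (ih m hlt hm ?_)
        exact (Int.natCast_dvd_natCast.2 (Dvd.intro_left _ rfl)).trans hd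
  have h2 := key n.natAbs (Int.natAbs_ne_zero.2 hn) ((Int.natAbs_dvd).2 hd)
  rcases Int.natAbs_eq n with e | e
  · rw [e, Int.cast_natCast]
    exact h2
  · rw [e, Int.cast_neg, Int.cast_natCast, neg_eq_neg_one_mul]
    exact h1.mul h2

theorem splits_sq {F : Type} [Field F] [Algebra ℚ F] {t : ℚ} (h : IsSquare (algebraMap ℚ F t)) :
    Splits ((X ^ 2 - C t : ℚ[X]).map (algebraMap ℚ F)) := by
  obtain ⟨s, hs⟩ := h
  have e : (X ^ 2 - C t : ℚ[X]).map (algebraMap ℚ F) = (X - C s) * (X - C (-s)) := by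
    rw [Polynomial.map_sub, Polynomial.map_pow, map_X, map_C, hs, map_neg, map_mul]
    ring
  rw [e]
  exact (Splits.X_sub_C s).mul (Splits.X_sub_C (-s))

theorem sq_ne (t : ℚ) : (X ^ 2 - C t : ℚ[X]) ≠ 0 := by
  have : (X ^ 2 - C t : ℚ[X]).Monic := by monicity!
  exact this.ne_zero

theorem F1_ne (N : ℤ) : F1 N ≠ 0 := by
  unfold F1
  exact mul_ne_zero (mul_ne_zero (sq_ne _) (sq_ne _)) (Finset.prod_ne_zero_iff.2 fun l _ => sq_ne _)

theorem sq_of_split {F : Type} [Field F] [Algebra ℚ F] {N : ℤ}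
    (h : Splits ((F1 N).map (algebraMap ℚ F))) {t : ℚ} (ht : (X ^ 2 - C t : ℚ[X]) ∣ F1 N) :
    IsSquare (algebraMap ℚ F t) := by
  have h0 : (F1 N).map (algebraMap ℚ F) ≠ 0 := by
    rw [Ne, Polynomial.map_eq_zero]
    exact F1_ne N
  have h1 := h.of_dvd h0 (Polynomial.map_dvd (algebraMap ℚ F) ht)
  obtain ⟨x, hx⟩ := h1.exists_eval_eq_zero (by
    rw [degree_map]
    have : (X ^ 2 - C t : ℚ[X]).degree = 2 := by compute_degree!
    rw [this]
    norm_num)
  rw [Polynomial.map_sub, Polynomial.map_pow, map_X, map_C, eval_sub, eval_pow, eval_X, eval_C] at hx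
  exact ⟨x, by linear_combination -hx⟩

theorem F1_splits {F : Type} [Field F] [Algebra ℚ F] {N : ℤ} (h1 : IsSquare (-1 : F))
    (h2 : IsSquare (2 : F)) (hN : ∀ l : ℕ, l.Prime → (l : ℤ) ∣ N → IsSquare ((l : ℕ) : F)) :
    Splits ((F1 N).map (algebraMap ℚ F)) := by
  unfold F1
  rw [Polynomial.map_mul, Polynomial.map_mul, Polynomial.map_prod]
  refine Splits.mul (Splits.mul (splits_sq ?_) (splits_sq ?_)) (Splits.prod fun l hl => splits_sq ?_)
  · rw [map_neg, map_one]
    exact h1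
  · rw [map_ofNat]
    exact h2
  · rw [map_natCast]
    obtain ⟨g1, g2, -⟩ := Nat.mem_primeFactors.1 hl
    exact hN l g1 (Int.natCast_dvd.2 g2)

/-- the squares in the ring of integers -/
theorem sq_int {K : Type} [Field K] [NumberField K] {θ : 𝓞 K}
    (h : IsSquare (algebraMap (𝓞 K) K θ)) : IsSquare θ := by
  obtain ⟨s, hs⟩ := h
  have hi : IsIntegral ℤ s := by
    refine IsIntegral.of_pow (n := 2) two_pos ?_
    rw [sq, ← hs]
    exact θ.2
  refine ⟨⟨s, hi⟩, ?_⟩
  apply RingOfIntegers.coe_injective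
  exact hs

theorem sq_zmod {K : Type} [Field K] [NumberField K] {p : ℕ} (φ : 𝓞 K →+* ZMod p) {n : ℤ}
    (h : IsSquare ((n : ℤ) : K)) : IsSquare ((n : ℤ) : ZMod p) := by
  have h1 : IsSquare (algebraMap (𝓞 K) K (n : 𝓞 K)) := by
    rw [map_intCast]
    exact h
  have h2 := (sq_int h1).map φ
  rwa [map_intCast] at h2

/-- the element of the ring of integers attached to a curve -/
theorem exists_t {K : Type} [Field K] [NumberField K] {A B : ℤ}
    (h : IsSquare ((A ^ 2 - 4 * B : ℤ) : K)) :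
    ∃ t : 𝓞 K, (t + (A : 𝓞 K)) ^ 2 = (A : 𝓞 K) ^ 2 - 4 * (B : 𝓞 K) := by
  have h1 : IsSquare (algebraMap (𝓞 K) K ((A ^ 2 - 4 * B : ℤ) : 𝓞 K)) := by
    rw [map_intCast]
    exact h
  obtain ⟨s, hs⟩ := sq_int h1
  refine ⟨s - A, ?_⟩
  push_cast at hs
  linear_combination -hs

variable {M : ℕ} {a b : Fin M → ℤ}

/-- **one prime separates two members on a set of primes of positive density** -/
theorem sepM_of (hq : ∃ q, PasM a b q) {m : Fin M → ℤ} (hm : ∀ k, ClaM a b (m k)) {k l : Fin M}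
    {p₀ : ℕ} (hp₀ : ActM a b p₀) (hk : ¬ (p₀ : ℤ) ∣ m k) (hl : ¬ (p₀ : ℤ) ∣ m l)
    (hne : fd (a k * m k) (b k * m k ^ 2) p₀ ≠ fd (a l * m l) (b l * m l ^ 2) p₀) :
    SepM a b m k l := by
  obtain ⟨q, hqq⟩ := hq
  obtain ⟨hbk, hck⟩ := hqq.ne k
  obtain ⟨hbl, hcl⟩ := hqq.ne l
  have hN0 := hqq.NN0
  set N := NN a b with hN
  set K := (F1 N).SplittingField with hK
  have hchar : CharZero K := inferInstance
  have hfd : FiniteDimensional ℚ K := inferInstance
  have hNF : NumberField K := NumberField.mk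
  have hsp : Splits ((F1 N).map (algebraMap ℚ K)) := SplittingField.splits (F1 N)
  have k1 : IsSquare (-1 : K) := by
    have := sq_of_split hsp (t := -1) (by
      unfold F1
      exact (Dvd.intro _ rfl : _ ∣ _).mul_right _)
    rwa [map_neg, map_one] at this
  have k2 : IsSquare (2 : K) := by
    have := sq_of_split hsp (t := 2) (by
      unfold F1
      exact (Dvd.intro_left _ rfl : _ ∣ _).mul_right _)
    rwa [map_ofNat] at this
  have k3 : ∀ r : ℕ, r.Prime → (r : ℤ) ∣ N → IsSquare ((r : ℕ) : K) := by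
    intro r hr hd
    have := sq_of_split hsp (t := (r : ℚ)) (by
      unfold F1
      refine Dvd.dvd.mul_left ?_ _
      exact Finset.dvd_prod_of_mem (fun l : ℕ => (X ^ 2 - C (l : ℚ) : ℚ[X]))
        (Nat.mem_primeFactors.2 ⟨hr, Int.natCast_dvd.1 hd, Int.natAbs_ne_zero.2 hN0⟩))
    rwa [map_natCast] at this
  obtain ⟨tk, htk⟩ := exists_t (K := K) (sq_of_primes k1 k3 hck (c_dvd k))
  obtain ⟨tl, htl⟩ := exists_t (K := K) (sq_of_primes k1 k3 hcl (c_dvd l))
  set θ : 𝓞 K := tk * tl * ((m k : ℤ) : 𝓞 K) * ((m l : ℤ) : 𝓞 K) with hθ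
  have hval : ∀ (p : ℕ) (φ : 𝓞 K →+* ZMod p), ActM a b p → ¬ (p : ℤ) ∣ m k → ¬ (p : ℤ) ∣ m l →
      ch (φ θ) = ∑ u ∈ symmDiff (pr (m k)) (pr (m l)), nr p u + fd (a k) (b k) p +
        fd (a l) (b l) p := fun p φ hp h1 h2 =>
    ch_image (hp.act k) (hp.act l) hbk hbl htk htl (hm k).1 (hm l).1 h1 h2 φ
  -- the element is not a square
  have hns : ¬ IsSquare (θ : K) := by
    intro h
    have h1 : IsSquare θ := sq_int h
    have hpf : Fact p₀.Prime := ⟨hp₀.1⟩
    have hact := hp₀.act k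
    have g1 : IsSquare (-1 : ℚ_[p₀]) := by
      have := padic_sq hact.two_ne (n := -1) (by
        intro hd
        have := Int.natCast_dvd.1 hd
        exact hp₀.1.one_lt.ne' (Nat.dvd_one.1 (by simpa using this))) (by
        push_cast
        exact hact.neg_one)
      push_cast at this
      exact this
    have g2 : IsSquare (2 : ℚ_[p₀]) := by
      have := padic_sq hact.two_ne (n := 2) (by
        intro hd
        have h5 : p₀ ∣ 2 := by exact_mod_cast hd
        exact hact.two_ne ((Nat.prime_dvd_prime_iff_eq hp₀.1 Nat.prime_two).1 h5)) (by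
        push_cast
        exact hact.two)
      push_cast at this
      exact this
    have g3 : ∀ r : ℕ, r.Prime → (r : ℤ) ∣ N → IsSquare ((r : ℕ) : ℚ_[p₀]) := by
      intro r hr hd
      have := padic_sq hact.two_ne (n := (r : ℤ)) (by
        intro hd'
        have h5 : p₀ ∣ r := Int.natCast_dvd_natCast.1 hd'
        rw [(Nat.prime_dvd_prime_iff_eq hp₀.1 hr).1 h5] at hp₀
        exact hp₀.2.2.1 hd) (by
        rw [Int.cast_natCast]
        exact hp₀.2.2.2 r hr hd)
      rwa [Int.cast_natCast] at this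
    have hsp' := F1_splits (F := ℚ_[p₀]) (N := N) g1 g2 g3
    obtain ⟨φ⟩ := exists_hom p₀ (SplittingField.lift (F1 N) hsp').toRingHom
    have h2 := ch_zero.2 (h1.map φ)
    rw [hval p₀ φ hp₀ hk hl] at h2
    apply hne
    rw [fd_twist (hp₀.act k) hbk hck hk, fd_twist (hp₀.act l) hbl hcl hl,
      ch_int (hp₀.act k) (hm k).1 hk, ch_int (hp₀.act l) (hm l).1 hl]
    rw [Q44.TJ.sum_symm (fun x : ZMod 2 => CharTwo.add_self_eq_zero x)] at h2
    have h3 : ∀ x y z w : ZMod 2, x + y + z + w = 0 → z + x = w + y := by decide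
    exact h3 _ _ _ _ h2
  -- the other primes
  refine hm_nonsq hns ((2 * N * m k * m l).natAbs.primeFactors) fun p hp hpB φ hφ => ?_
  have hpf : Fact p.Prime := ⟨hp⟩
  have hne0 : 2 * N * m k * m l ≠ 0 :=
    mul_ne_zero (mul_ne_zero (mul_ne_zero two_ne_zero hN0) (hm k).1.ne_zero) (hm l).1.ne_zero
  have hnd : ¬ (p : ℤ) ∣ 2 * N * m k * m l := fun hd =>
    hpB (Nat.mem_primeFactors.2 ⟨hp, Int.natCast_dvd.1 hd, Int.natAbs_ne_zero.2 hne0⟩)
  have n1 : ¬ (p : ℤ) ∣ m l := fun h => hnd (h.mul_left _)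
  have n2 : ¬ (p : ℤ) ∣ m k := fun h => hnd ((h.mul_left _).mul_right _)
  have n3 : ¬ (p : ℤ) ∣ N := fun h => hnd (((h.mul_left _).mul_right _).mul_right _)
  have n4 : p ≠ 2 := by
    rintro rfl
    exact hnd (((Dvd.intro _ rfl : ((2 : ℕ) : ℤ) ∣ 2 * N).mul_right _).mul_right _)
  have a1 : IsSquare (-1 : ZMod p) := by
    have := sq_zmod φ (n := -1) (by
      push_cast
      exact k1)
    push_cast at this
    exact this
  have a2 : IsSquare (2 : ZMod p) := by
    have := sq_zmod φ (n := 2) (by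
      push_cast
      exact k2)
    push_cast at this
    exact this
  have a3 : ∀ r : ℕ, r.Prime → (r : ℤ) ∣ N → IsSquare ((r : ℕ) : ZMod p) := by
    intro r hr hd
    have := sq_zmod φ (n := (r : ℤ)) (by
      rw [Int.cast_natCast]
      exact k3 r hr hd)
    rwa [Int.cast_natCast] at this
  have h8 : p % 8 = 1 := by
    have h5 := ZMod.exists_sq_eq_neg_one_iff.1 a1
    have h6 := (ZMod.exists_sq_eq_two_iff n4).1 a2
    omega
  have hact : ActM a b p := ⟨hp, h8, n3, a3⟩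
  refine ⟨hact, fun h0 => hφ ?_⟩
  rw [← hval p φ hact n2 n1] at h0
  exact ch_zero.1 h0

end Q44.TK
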