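import Pool.Agent.Q44.TK.Ram

/-!
# The dichotomy: separated or equal
-/

set_option autoImplicit false
set_option linter.unusedSectionVars false

open scoped Classical

namespace Q44.TK

open Finset NumberField Polynomial
open Q283.GM (HM rk Kr mem_Kr)
open Pool.Agent.Y703.CQ (nr)
open Q44.TI Q44.TJ

variable {M : ℕ} {a b : Fin M → ℤ}

/-- **the separation, if the number is not a square in the multiquadratic field** -/
theorem sepM_ns (hq : ∃ q, PasM a b q) {m : Fin M → ℤ} (hm : ∀ k, ClaM a b (m k)) {k l : Fin M}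
    (hns : ∀ tk tl : 𝓞 (F1 (NN a b)).SplittingField,
      (tk + ((a k : ℤ) : 𝓞 (F1 (NN a b)).SplittingField)) ^ 2 =
        ((a k : ℤ) : 𝓞 (F1 (NN a b)).SplittingField) ^ 2 -
          4 * ((b k : ℤ) : 𝓞 (F1 (NN a b)).SplittingField) →
      (tl + ((a l : ℤ) : 𝓞 (F1 (NN a b)).SplittingField)) ^ 2 =
        ((a l : ℤ) : 𝓞 (F1 (NN a b)).SplittingField) ^ 2 -
          4 * ((b l : ℤ) : 𝓞 (F1 (NN a b)).SplittingField) →
      ¬ IsSquare ((tk * tl * ((m k : ℤ) : 𝓞 (F1 (NN a b)).SplittingField) *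
        ((m l : ℤ) : 𝓞 (F1 (NN a b)).SplittingField) : 𝓞 (F1 (NN a b)).SplittingField) :
          (F1 (NN a b)).SplittingField)) :
    SepM a b m k l := by
  obtain ⟨q, hqq⟩ := hq
  obtain ⟨hbk, hck⟩ := hqq.ne k
  obtain ⟨hbl, hcl⟩ := hqq.ne l
  have hN0 := hqq.NN0
  set N := NN a b with hN
  set K := (F1 N).SplittingField with hK
  have hchar : CharZero K := inferInstance
  have hfd : FiniteDimensional ℚ K := inferInstance
  have hNF : NumberField K := NumberField.mk
  have hsp : Splits ((F1 N).map (algebraMap ℚ K)) := SplittingField.splits (F1 N)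
  have k1 : IsSquare (-1 : K) := by
    have := sq_of_split hsp (t := -1) (by
      unfold F1
      exact (Dvd.intro _ rfl : _ ∣ _).mul_right _)
    rwa [map_neg, map_one] at this
  have k2 : IsSquare (2 : K) := by
    have := sq_of_split hsp (t := 2) (by
      unfold F1
      exact (Dvd.intro_left _ rfl : _ ∣ _).mul_right _)
    rwa [map_ofNat] at this
  have k3 : ∀ r : ℕ, r.Prime → (r : ℤ) ∣ N → IsSquare ((r : ℕ) : K) := by
    intro r hr hd
    have := sq_of_split hsp (t := (r : ℚ)) (by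
      unfold F1
      refine Dvd.dvd.mul_left ?_ _
      exact Finset.dvd_prod_of_mem (fun l : ℕ => (X ^ 2 - C (l : ℚ) : ℚ[X]))
        (Nat.mem_primeFactors.2 ⟨hr, Int.natCast_dvd.1 hd, Int.natAbs_ne_zero.2 hN0⟩))
    rwa [map_natCast] at this
  obtain ⟨tk, htk⟩ := exists_t (K := K) (sq_of_primes k1 k3 hck (c_dvd k))
  obtain ⟨tl, htl⟩ := exists_t (K := K) (sq_of_primes k1 k3 hcl (c_dvd l))
  have hns' := hns tk tl htk htl
  set θ : 𝓞 K := tk * tl * ((m k : ℤ) : 𝓞 K) * ((m l : ℤ) : 𝓞 K) with hθ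
  have hval : ∀ (p : ℕ) (φ : 𝓞 K →+* ZMod p), ActM a b p → ¬ (p : ℤ) ∣ m k → ¬ (p : ℤ) ∣ m l →
      ch (φ θ) = ∑ u ∈ symmDiff (pr (m k)) (pr (m l)), nr p u + fd (a k) (b k) p +
        fd (a l) (b l) p := fun p φ hp h1 h2 =>
    ch_image (hp.act k) (hp.act l) hbk hbl htk htl (hm k).1 (hm l).1 h1 h2 φ
  refine hm_nonsq hns' ((2 * N * m k * m l).natAbs.primeFactors) fun p hp hpB φ hφ => ?_
  have hpf : Fact p.Prime := ⟨hp⟩
  have hne0 : 2 * N * m k * m l ≠ 0 :=
    mul_ne_zero (mul_ne_zero (mul_ne_zero two_ne_zero hN0) (hm k).1.ne_zero) (hm l).1.ne_zero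
  have hnd : ¬ (p : ℤ) ∣ 2 * N * m k * m l := fun hd =>
    hpB (Nat.mem_primeFactors.2 ⟨hp, Int.natCast_dvd.1 hd, Int.natAbs_ne_zero.2 hne0⟩)
  have n1 : ¬ (p : ℤ) ∣ m l := fun h => hnd (h.mul_left _)
  have n2 : ¬ (p : ℤ) ∣ m k := fun h => hnd ((h.mul_left _).mul_right _)
  have n3 : ¬ (p : ℤ) ∣ N := fun h => hnd (((h.mul_left _).mul_right _).mul_right _)
  have n4 : p ≠ 2 := by
    rintro rfl
    exact hnd (((Dvd.intro _ rfl : ((2 : ℕ) : ℤ) ∣ 2 * N).mul_right _).mul_right _)
  have a1 : IsSquare (-1 : ZMod p) := by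
    have := sq_zmod φ (n := -1) (by
      push_cast
      exact k1)
    push_cast at this
    exact this
  have a2 : IsSquare (2 : ZMod p) := by
    have := sq_zmod φ (n := 2) (by
      push_cast
      exact k2)
    push_cast at this
    exact this
  have a3 : ∀ r : ℕ, r.Prime → (r : ℤ) ∣ N → IsSquare ((r : ℕ) : ZMod p) := by
    intro r hr hd
    have := sq_zmod φ (n := (r : ℤ)) (by
      rw [Int.cast_natCast]
      exact k3 r hr hd)
    rwa [Int.cast_natCast] at this
  have h8 : p % 8 = 1 := by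
    have h5 := ZMod.exists_sq_eq_neg_one_iff.1 a1
    have h6 := (ZMod.exists_sq_eq_two_iff n4).1 a2
    omega
  have hact : ActM a b p := ⟨hp, h8, n3, a3⟩
  refine ⟨hact, fun h0 => hφ ?_⟩
  rw [← hval p φ hact n2 n1] at h0
  exact ch_zero.1 h0

/-- **the twists by numbers with different prime factors are separated** -/
theorem sepM_diff (hM : 0 < M) (hq : ∃ q, PasM a b q) {m : Fin M → ℤ} (hm : ∀ k, ClaM a b (m k))
    {k l : Fin M} (hne : pr (m k) ≠ pr (m l)) : SepM a b m k l := by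
  have main : ∀ k l : Fin M, ∀ q : ℕ, q ∈ pr (m k) → q ∉ pr (m l) → SepM a b m k l := by
    intro k l q hqk hql
    have hqp : q.Prime := Nat.prime_of_mem_primeFactors hqk
    have hqf : Fact q.Prime := ⟨hqp⟩
    have h2 : q ≠ 2 := by
      rcases (hm k).pr q hqk with h | h
      · exact (h.act k).two_ne
      · exact (h.pas k).two_ne
    have hqN : ¬ (q : ℤ) ∣ NN a b := by
      rcases (hm k).pr q hqk with h | h
      · exact h.2.2.1
      · exact h.nN
    obtain ⟨g, hg⟩ : ∃ g : ZMod q, ¬ IsSquare g := by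
      refine FiniteField.exists_nonsquare ?_
      rw [ZMod.ringChar_zmod_n]
      exact h2
    have hη : ¬ IsSquare (((g.val : ℤ) : ℤ) : ZMod q) := by
      have e : (((g.val : ℤ) : ℤ) : ZMod q) = g := by
        rw [Int.cast_natCast, ZMod.natCast_zmod_val]
      rw [e]
      exact hg
    obtain ⟨ψ⟩ := exists_psi h2 hη hqN
    refine sepM_ns hq hm fun tk tl htk htl => ?_
    have hfd : FiniteDimensional ℚ (F1 (NN a b)).SplittingField := inferInstance
    have hNF : NumberField (F1 (NN a b)).SplittingField := NumberField.mk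
    refine not_sq_of hη h2 ψ ?_ ?_ htk htl (hm k).1 ?_ ?_
    · exact fun hd => hqN (hd.trans (b_dvd k))
    · exact fun hd => hqN (hd.trans (b_dvd l))
    · exact Int.natCast_dvd.2 (Nat.dvd_of_mem_primeFactors hqk)
    · intro hd
      apply hql
      exact Nat.mem_primeFactors.2 ⟨hqp, Int.natCast_dvd.1 hd, Int.natAbs_ne_zero.2 (hm l).1.ne_zero⟩
  have hsym : SepM a b m l k → SepM a b m k l := by
    intro h
    refine hm_congr h fun p _ h1 => ⟨h1.1, ?_⟩
    rw [symmDiff_comm, add_right_comm]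
    exact h1.2
  by_cases h1 : ∃ q ∈ pr (m k), q ∉ pr (m l)
  · obtain ⟨q, h2, h3⟩ := h1
    exact main k l q h2 h3
  · push Not at h1
    by_cases h2 : ∃ q ∈ pr (m l), q ∉ pr (m k)
    · obtain ⟨q, h3, h4⟩ := h2
      exact hsym (main l k q h3 h4)
    · push Not at h2
      exact absurd (Finset.Subset.antisymm h1 h2) hne

/-- **two curves with different quartic symbols at some prime are separated** -/
theorem sepM_curve (hM : 0 < M) (hq : ∃ q, PasM a b q) {m : Fin M → ℤ} {k l : Fin M}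
    (he : pr (m k) = pr (m l)) {p₀ : ℕ} (hp₀ : ActM a b p₀)
    (hne : fd (a k) (b k) p₀ ≠ fd (a l) (b l) p₀) : SepM a b m k l := by
  have h1 : ∀ k, ClaM a b ((fun _ : Fin M => (1 : ℤ)) k) := by
    intro k
    refine ⟨squarefree_one, fun p hp hd => ?_⟩
    exfalso
    have := Int.natCast_dvd.1 hd
    exact hp.one_lt.ne' (Nat.dvd_one.1 (by simpa using this))
  have hn : ¬ (p₀ : ℤ) ∣ 1 := by
    intro hd
    have := Int.natCast_dvd.1 hd
    exact hp₀.1.one_lt.ne' (Nat.dvd_one.1 (by simpa using this))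
  have h2 := sepM_of hq (m := fun _ => 1) h1 (k := k) (l := l) hp₀ hn hn (by
    simp only [mul_one, one_pow]
    exact hne)
  refine hm_congr h2 fun p _ h3 => ⟨h3.1, ?_⟩
  have h4 := h3.2
  rw [symmDiff_self] at h4
  rw [he, symmDiff_self]
  exact h4

/-- the corank only depends on the values at the active primes of the set -/
theorem rk_congr_f {Φ : Q283.GM.Fam} {S : Finset ℕ} {f f' : ℕ → ZMod 2}
    (h : ∀ p ∈ S, Φ.A p → f p = f' p) : rk Φ f S = rk Φ f' S := by
  have e : Kr Φ f S = Kr Φ f' S := by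
    ext x
    rw [mem_Kr, mem_Kr]
    refine and_congr_right fun _ => forall_congr' fun p => forall_congr' fun hp =>
      forall_congr' fun ha => ?_
    rw [h p hp ha]
  unfold rk
  rw [e]

/-- **not separated curves have the same corank** -/
theorem crk_same (hM : 0 < M) (hq : ∃ q, PasM a b q) {S : Finset ℕ}
    (hS : ∀ p ∈ S, ActM a b p ∨ PasM a b p) {k l : Fin M}
    (h : ∀ p, ActM a b p → fd (a k) (b k) p = fd (a l) (b l) p) :
    crk (a k) (b k) S = crk (a l) (b l) S := by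
  rw [← crk_rk hM hq hS k, ← crk_rk hM hq hS l]
  refine rk_congr_f fun p _ hp => h p ?_
  exact (AM_iff hM hq p).1 hp

end Q44.TK
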